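import Mathlib

/-!
# MP_92ef0c_nt, law for almost all pairs of moduli: the progression has `J` members
-/

set_option autoImplicit false

namespace Pool.Agent.SplR

/-- the number of members of the progression -/
theorem prg_card (h k n0 a b J : ℕ) (hk : 0 < k) (ha : 0 < a) (hb : 0 < b) (hab : a.Coprime b) (habk : (a * b).Coprime k) :
    {n : ℕ | n < J * (a * b * k) ∧ b ∣ n ∧ a ∣ n + h ∧ n ≡ n0 [MOD k]}.ncard = J := by
  obtain ⟨y, hy1, hy2⟩ := Nat.chineseRemainder hab ((a - 1) * h) 0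
  obtain ⟨r, hr1, hr2⟩ := Nat.chineseRemainder habk y n0
  have hra : a ∣ r + h := by
    have e1 : r ≡ (a - 1) * h [MOD a] := (hr1.of_mul_right b).trans hy1
    have e2 : r + h ≡ (a - 1) * h + h [MOD a] := e1.add_right h
    have e3 : (a - 1) * h + h = a * h := by
      obtain ⟨a', rfl⟩ : ∃ a', a = a' + 1 := ⟨a - 1, by omega⟩
      simp only [Nat.add_sub_cancel]
      ring
    rw [e3] at e2
    exact (Nat.modEq_zero_iff_dvd).1 (e2.trans ((Nat.modEq_zero_iff_dvd).2 (Dvd.intro _ rfl)))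
  have hrb : b ∣ r := (Nat.modEq_zero_iff_dvd).1 ((hr1.of_mul_left a).trans hy2)
  have hiff : ∀ n : ℕ, (b ∣ n ∧ a ∣ n + h ∧ n ≡ n0 [MOD k]) ↔ n ≡ r [MOD a * b * k] := by
    intro n
    constructor
    · rintro ⟨h1, h2, h3⟩
      have g1 : n ≡ r [MOD b] := ((Nat.modEq_zero_iff_dvd).2 h1).trans ((Nat.modEq_zero_iff_dvd).2 hrb).symm
      have g2 : n ≡ r [MOD a] := by
        have g3 : n + h ≡ r + h [MOD a] :=
          ((Nat.modEq_zero_iff_dvd).2 h2).trans ((Nat.modEq_zero_iff_dvd).2 hra).symm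
        exact Nat.ModEq.add_right_cancel' h g3
      have g4 : n ≡ r [MOD a * b] := (Nat.modEq_and_modEq_iff_modEq_mul hab).1 ⟨g2, g1⟩
      exact (Nat.modEq_and_modEq_iff_modEq_mul habk).1 ⟨g4, h3.trans hr2.symm⟩
    · intro h1
      obtain ⟨g1, g2⟩ := (Nat.modEq_and_modEq_iff_modEq_mul habk).2 h1
      obtain ⟨g3, g4⟩ := (Nat.modEq_and_modEq_iff_modEq_mul hab).2 g1
      refine ⟨(Nat.modEq_zero_iff_dvd).1 (g4.trans ((Nat.modEq_zero_iff_dvd).2 hrb)), ?_, g2.trans hr2⟩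
      exact (Nat.modEq_zero_iff_dvd).1 ((g3.add_right h).trans ((Nat.modEq_zero_iff_dvd).2 hra))
  have hm : 0 < a * b * k := Nat.mul_pos (Nat.mul_pos ha hb) hk
  have hset : {n : ℕ | n < J * (a * b * k) ∧ b ∣ n ∧ a ∣ n + h ∧ n ≡ n0 [MOD k]} =
      (((Finset.range (J * (a * b * k))).filter (fun n => n ≡ r [MOD a * b * k]) : Finset ℕ) : Set ℕ) := by
    ext n
    simp only [Set.mem_ofPred_eq, Finset.coe_filter, Finset.mem_range, hiff]
  rw [hset, Set.ncard_coe_finset, ← Nat.count_eq_card_filter_range, Nat.count_modEq_card (J * (a * b * k)) hm r]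
  rw [Nat.mul_div_cancel _ hm, Nat.mul_mod_left]
  simp

end Pool.Agent.SplR
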