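import Pool.Agent.Lib_MP_92ef0c_rw.Prg

/-!
# MP_92ef0c_nt, law for almost all pairs of moduli: members coprime to `h`
-/

set_option autoImplicit false

namespace Pool.Agent.SplR

/-- a unit modulo `k` lifts to a unit modulo `k h` -/
theorem lift_coprime (h k n0 : ℕ) (hh : 0 < h) (hk : 0 < k) (h1 : n0.Coprime k) :
    ∃ u : ℕ, u.Coprime (k * h) ∧ u ≡ n0 [MOD k] := by
  haveI : NeZero (k * h) := ⟨(Nat.mul_pos hk hh).ne'⟩
  obtain ⟨V, hV⟩ := ZMod.unitsMap_surjective (Dvd.intro h rfl : k ∣ k * h) (ZMod.unitOfCoprime n0 h1)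
  refine ⟨(V : ZMod (k * h)).val, ZMod.val_coe_unit_coprime V, ?_⟩
  have h2 : (((V : ZMod (k * h)).val : ℕ) : ZMod k) = (n0 : ZMod k) := by
    have h3 := congrArg (fun w : (ZMod k)ˣ => (w : ZMod k)) hV
    simp only [ZMod.unitsMap_val, ZMod.coe_unitOfCoprime] at h3
    rw [ZMod.natCast_val]
    exact h3
  exact (ZMod.natCast_eq_natCast_iff _ _ _).1 h2

/-- at least `⌊J / h⌋` members of the progression are coprime to `h`: `h` consecutive members `m + j a b k` contain one
which is `1` modulo every prime divisor of `h` that does not divide `k`; the members are `n0`, coprime to `k`, modulo the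
primes dividing `k` -/
theorem prg_low (h k n0 a b J : ℕ) (hh : 0 < h) (hk : 0 < k) (h1 : n0.Coprime k) (ha : 0 < a) (hb : 0 < b)
    (hab : a.Coprime b) (habk : (a * b).Coprime (k * h)) :
    J / h ≤ {n : ℕ | (n < J * (a * b * k) ∧ b ∣ n ∧ a ∣ n + h ∧ n ≡ n0 [MOD k]) ∧ n.Coprime h}.ncard := by
  obtain ⟨u, hu1, hu2⟩ := lift_coprime h k n0 hh hk h1
  have h2 := prg_card h (k * h) u a b (J / h) (Nat.mul_pos hk hh) ha hb hab habk
  rw [← h2]
  refine Set.ncard_le_ncard ?_ ?_
  · rintro n ⟨hn1, hn2, hn3, hn4⟩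
    refine ⟨⟨?_, hn2, hn3, ?_⟩, ?_⟩
    · have h3 : J / h * (a * b * (k * h)) = (J / h * h) * (a * b * k) := by ring
      have h4 : J / h * h ≤ J := Nat.div_mul_le_self J h
      calc n < J / h * (a * b * (k * h)) := hn1
        _ = (J / h * h) * (a * b * k) := h3
        _ ≤ J * (a * b * k) := Nat.mul_le_mul_right _ h4
    · exact (hn4.of_mul_right h).trans hu2
    · have h5 : n.gcd (k * h) = u.gcd (k * h) := hn4.gcd_eq
      have h6 : n.Coprime (k * h) := by
        unfold Nat.Coprime at hu1 ⊢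
        rw [h5]
        exact hu1
      exact Nat.Coprime.coprime_mul_left_right h6
  · exact (Set.finite_lt_nat (J * (a * b * k))).subset fun n hn => hn.1.1

end Pool.Agent.SplR
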