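import Pool.Agent.Lib_MP_92ef0c_m.M41

/-!
# MP_92ef0c_nt, law for almost all pairs of moduli: one first row

For a first row `V = (a, b)` the sum over the second rows `(c, d)` with `c < T a` is an average of the triangle sums `l4T`.
-/

set_option autoImplicit false

namespace Pool.Agent.SplR

open Finset Pool.Agent.Spl Pool.Agent.SplB Pool.Agent.SplL Pool.Agent.GaussMR Pool.Agent.OmAll Pool.Agent.OmEq
  MeasureTheory Filter

/-- `(c, d)` is a second row for `(a, b)` with `c < T a` -/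
def rR (h0 Q n0 T : ℕ) (V B : ℕ × ℕ) : Prop :=
  V.1 * B.2 = V.2 * B.1 + h0 ∧ V.2 * B.1 ≡ n0 [MOD Q] ∧ B.1 < T * V.1

open Classical in
/-- the second rows with `c < T a` -/
noncomputable def rT (h0 Q n0 T : ℕ) (V : ℕ × ℕ) : Finset (ℕ × ℕ) :=
  (c3B h0 Q n0 0 T V).filter (fun B => B.1 < T * V.1)

theorem mem_rT {h0 Q n0 T : ℕ} {V B : ℕ × ℕ} (hV : 1 ≤ V.1) : B ∈ rT h0 Q n0 T V ↔ rR h0 Q n0 T V B := by
  classical
  unfold rT rR
  rw [mem_filter, c3_memB hV]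
  unfold c3R
  constructor
  · rintro ⟨⟨h1, h2, -, -⟩, h3⟩
    exact ⟨h1, h2, h3⟩
  · rintro ⟨h1, h2, h3⟩
    exact ⟨⟨h1, h2, by omega, by rw [Nat.zero_add]; exact h3.le⟩, h3⟩

/-- coprimality of the rows -/
theorem r_facts {h0 Q n0 : ℕ} (hQ : HQ h0 Q n0) {V B : ℕ × ℕ} (h1 : V.1 * B.2 = V.2 * B.1 + h0)
    (h2 : V.2 * B.1 ≡ n0 [MOD Q]) : V.1.Coprime V.2 ∧ B.1.Coprime Q ∧ B.2.Coprime Q := by
  have h5 : (V.2 * B.1).Coprime Q := by
    have h6 := Nat.ModEq.gcd_eq h2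
    have h7 : Nat.gcd n0 Q = 1 := hQ.cop
    rw [h7] at h6
    exact h6
  have h6 : (V.1 * B.2).Coprime Q := by
    have h7 : V.1 * B.2 ≡ n0 + h0 [MOD Q] := by
      rw [h1]
      exact Nat.ModEq.add_right h0 h2
    have h8 := Nat.ModEq.gcd_eq h7
    have h9 : Nat.gcd (n0 + h0) Q = 1 := hQ.cop'
    rw [h9] at h8
    exact h8
  have hV1 : V.1.Coprime Q := Nat.Coprime.coprime_dvd_left (Dvd.intro _ rfl) h6
  refine ⟨?_, Nat.Coprime.coprime_dvd_left (Dvd.intro_left _ rfl) h5,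
    Nat.Coprime.coprime_dvd_left (Dvd.intro_left _ rfl) h6⟩
  have h7 : Nat.gcd V.1 V.2 ∣ h0 := by
    have h8 : Nat.gcd V.1 V.2 ∣ V.1 * B.2 := (Nat.gcd_dvd_left _ _).trans (Dvd.intro _ rfl)
    rw [h1] at h8
    exact (Nat.dvd_add_right ((Nat.gcd_dvd_right _ _).trans (Dvd.intro _ rfl))).1 h8
  have h8 : Nat.gcd V.1 V.2 ∣ Q := h7.trans hQ.dvd
  have h9 : Nat.gcd V.1 V.2 ∣ Nat.gcd V.1 Q := Nat.dvd_gcd (Nat.gcd_dvd_left _ _) h8
  have h10 : Nat.gcd V.1 Q = 1 := hV1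
  rw [h10] at h9
  exact Nat.dvd_one.1 h9

/-- two second rows with the same `⌊c / a⌋` are equal -/
theorem r_inj {h0 Q n0 : ℕ} (hQ : HQ h0 Q n0) {V B B' : ℕ × ℕ} (hV : 1 ≤ V.1) (h1 : V.1 * B.2 = V.2 * B.1 + h0)
    (h2 : V.2 * B.1 ≡ n0 [MOD Q]) (h1' : V.1 * B'.2 = V.2 * B'.1 + h0) (he : B.1 / V.1 = B'.1 / V.1) : B = B' := by
  obtain ⟨hc, -, -⟩ := r_facts hQ h1 h2
  have h3 : V.2 * B.1 ≡ V.2 * B'.1 [MOD V.1] := by
    have e1 : V.2 * B.1 + h0 ≡ V.2 * B'.1 + h0 [MOD V.1] := by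
      rw [← h1, ← h1']
      exact ((Nat.modEq_zero_iff_dvd).2 (Dvd.intro _ rfl)).trans ((Nat.modEq_zero_iff_dvd).2 (Dvd.intro _ rfl)).symm
    exact Nat.ModEq.add_right_cancel' _ e1
  have h4 : B.1 ≡ B'.1 [MOD V.1] := Nat.ModEq.cancel_left_of_coprime hc h3
  have h5 : B.1 = B'.1 := by
    have e1 := Nat.div_add_mod B.1 V.1
    have e2 := Nat.div_add_mod B'.1 V.1
    rw [← e1, ← e2, he, h4]
  have h6 : B.2 = B'.2 := by
    apply Nat.eq_of_mul_eq_mul_left (show 0 < V.1 by omega)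
    rw [h1, h1', h5]
  exact Prod.ext h5 h6

theorem r_cardB {h0 Q n0 J N : ℕ} (hQ : HQ h0 Q n0) {V : ℕ × ℕ} (hV : 1 ≤ V.1) :
    (c3B h0 Q n0 J N V).card ≤ N + 1 := by
  have h1 : (c3B h0 Q n0 J N V).card ≤ (Icc J (J + N)).card := by
    apply card_le_card_of_injOn (fun B => B.1 / V.1)
    · intro B hB
      rw [mem_coe, c3_memB hV] at hB
      rw [mem_coe, mem_Icc]
      exact ⟨(Nat.le_div_iff_mul_le (by omega)).2 hB.2.2.1, (Nat.div_le_iff_le_mul_add_pred (by omega)).2 (by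
        have := hB.2.2.2
        have h2 : (J + N) * V.1 = V.1 * (J + N) := by ring
        omega)⟩
    · intro B hB B' hB' he
      rw [mem_coe, c3_memB hV] at hB hB'
      exact r_inj hQ hV hB.1 hB.2.1 hB'.1 he
  rw [Nat.card_Icc] at h1
  omega

theorem rT_card {h0 Q n0 T : ℕ} (hQ : HQ h0 Q n0) {V : ℕ × ℕ} (hV : 1 ≤ V.1) : (rT h0 Q n0 T V).card ≤ T + 1 :=
  (card_filter_le _ _).trans (r_cardB hQ hV)

/-! ### The sum of the triangles -/

theorem rho_le_one (J N : ℕ) (r : ℝ) : rho J N r ≤ 1 := by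
  unfold rho
  have := abs_nonneg (2 * (r - J) / N - 1)
  exact max_le zero_le_one (by linarith)

/-- the sum of the triangles -/
noncomputable def sR (J0 T N : ℕ) (r : ℝ) : ℝ := ∑ J ∈ Ico J0 T, rho J N r

theorem sR_nonneg (J0 T N : ℕ) (r : ℝ) : 0 ≤ sR J0 T N r := sum_nonneg fun _ _ => apxn_rho_nn _ _ _

theorem sR_le (J0 T N : ℕ) (hN : 1 ≤ N) (r : ℝ) (hr : 0 ≤ r) : sR J0 T N r ≤ N := by
  unfold sR
  have h1 : ∑ J ∈ Ico J0 T, rho J N r ≤ ∑ J ∈ Ico J0 T, if J ∈ Ico (⌊r⌋₊ + 1 - N) (⌊r⌋₊ + 1) then (1 : ℝ) else 0 := by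
    refine sum_le_sum fun J _ => ?_
    split_ifs with h
    · exact rho_le_one J N r
    · refine le_of_eq ?_
      by_contra h2
      apply h
      obtain ⟨h3, h4⟩ := apxn_rho_ne hN h2
      rw [mem_Ico]
      have h5 : J ≤ ⌊r⌋₊ := Nat.le_floor h3.le
      have h6 : (⌊r⌋₊ : ℝ) < ((J + N : ℕ) : ℝ) := by
        push_cast
        exact (Nat.floor_le hr).trans_lt h4
      have h7 : ⌊r⌋₊ < J + N := by exact_mod_cast h6
      omega
  refine h1.trans ?_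
  rw [← sum_filter, sum_const, nsmul_eq_mul, mul_one]
  have h2 : ((Ico J0 T).filter (fun J => J ∈ Ico (⌊r⌋₊ + 1 - N) (⌊r⌋₊ + 1))).card ≤
      (Ico (⌊r⌋₊ + 1 - N) (⌊r⌋₊ + 1)).card := by
    apply card_le_card
    intro J hJ
    exact (mem_filter.1 hJ).2
  rw [Nat.card_Ico] at h2
  have h3 : ((Ico J0 T).filter (fun J => J ∈ Ico (⌊r⌋₊ + 1 - N) (⌊r⌋₊ + 1))).card ≤ N := by omega
  exact_mod_cast h3

/-- the triangles of integer half width `W` add up to `W` -/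
theorem sR_eq (J0 T W : ℕ) (hW : 1 ≤ W) (r : ℝ) (h1 : (J0 : ℝ) + 2 * W ≤ r) (h2 : r ≤ T) : sR J0 T (2 * W) r = W := by
  have hr : 0 ≤ r := by
    have : (0 : ℝ) ≤ (J0 : ℝ) + 2 * W := by positivity
    linarith
  have hN : 1 ≤ 2 * W := by omega
  have hW0 : (1 : ℝ) ≤ W := by exact_mod_cast hW
  set m := ⌊r⌋₊ with hm
  have hmr : (m : ℝ) ≤ r := Nat.floor_le hr
  have hrm : r < m + 1 := Nat.lt_floor_add_one r
  have hm1 : J0 + 2 * W ≤ m := by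
    apply Nat.le_floor
    push_cast
    exact h1
  have hm2 : m ≤ T := by
    have : (m : ℝ) ≤ T := hmr.trans h2
    exact_mod_cast this
  -- replace the range of summation
  have e1 : sR J0 T (2 * W) r = ∑ J ∈ Ico (m + 1 - 2 * W) (m + 1), rho J (2 * W) r := by
    unfold sR
    have e2 : ∑ J ∈ Ico J0 T, rho J (2 * W) r = ∑ J ∈ Ico J0 (T + 1), rho J (2 * W) r := by
      refine sum_subset (Ico_subset_Ico_right (by omega)) fun J hJ hJ' => ?_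
      rw [mem_Ico] at hJ hJ'
      have hJT : J = T := by omega
      by_contra h3
      obtain ⟨h4, -⟩ := apxn_rho_ne hN h3
      rw [hJT] at h4
      linarith
    rw [e2]
    symm
    refine sum_subset (Ico_subset_Ico (by omega) (by omega)) fun J hJ hJ' => ?_
    rw [mem_Ico] at hJ hJ'
    by_contra h3
    obtain ⟨h4, h5⟩ := apxn_rho_ne hN h3
    have h6 : J ≤ m := Nat.le_floor h4.le
    have h7 : (m : ℝ) < ((J + 2 * W : ℕ) : ℝ) := by
      push_cast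
      push_cast at h5
      linarith
    have h8 : m < J + 2 * W := by exact_mod_cast h7
    omega
  rw [e1, sum_Ico_eq_sum_range]
  have e3 : m + 1 - (m + 1 - 2 * W) = W + W := by omega
  rw [e3, sum_range_add]
  have e4 : ∀ i ∈ range W, rho (m + 1 - 2 * W + i) (2 * W) r = (1 - (r - m) + i) / W := by
    intro i hi
    rw [mem_range] at hi
    have hi' : (i : ℝ) + 1 ≤ W := by exact_mod_cast hi
    unfold rho
    have e5 : ((m + 1 - 2 * W + i : ℕ) : ℝ) = m + 1 - 2 * W + i := by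
      have e6 : m + 1 - 2 * W + i + 2 * W = m + 1 + i := by omega
      have e7 : ((m + 1 - 2 * W + i + 2 * W : ℕ) : ℝ) = ((m + 1 + i : ℕ) : ℝ) := by rw [e6]
      push_cast at e7 ⊢
      linarith
    rw [e5]
    have e8 : 2 * (r - ((m : ℝ) + 1 - 2 * W + i)) / ((2 * W : ℕ) : ℝ) - 1 = ((r - m) + W - 1 - i) / W := by
      push_cast
      field_simp
      ring
    rw [e8, abs_of_nonneg (div_nonneg (by linarith) (by linarith))]
    have e9 : 1 - ((r - m) + W - 1 - i) / W = (1 - (r - m) + i) / W := by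
      field_simp
      ring
    rw [e9]
    exact max_eq_right (div_nonneg (by
      have : (0 : ℝ) ≤ i := Nat.cast_nonneg i
      linarith) (by linarith))
  have e4' : ∀ i ∈ range W, rho (m + 1 - 2 * W + (W + i)) (2 * W) r = 1 + ((r - m) - 1 - i) / W := by
    intro i hi
    rw [mem_range] at hi
    have hi' : (i : ℝ) + 1 ≤ W := by exact_mod_cast hi
    have hi0 : (0 : ℝ) ≤ i := Nat.cast_nonneg i
    unfold rho
    have e5 : ((m + 1 - 2 * W + (W + i) : ℕ) : ℝ) = m + 1 - W + i := by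
      have e6 : m + 1 - 2 * W + (W + i) + W = m + 1 + i := by omega
      have e7 : ((m + 1 - 2 * W + (W + i) + W : ℕ) : ℝ) = ((m + 1 + i : ℕ) : ℝ) := by rw [e6]
      push_cast at e7 ⊢
      linarith
    rw [e5]
    have e8 : 2 * (r - ((m : ℝ) + 1 - W + i)) / ((2 * W : ℕ) : ℝ) - 1 = ((r - m) - 1 - i) / W := by
      push_cast
      field_simp
      ring
    rw [e8, abs_of_nonpos (div_nonpos_of_nonpos_of_nonneg (by linarith) (by linarith)), sub_neg_eq_add]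
    refine max_eq_right ?_
    have e9 : 1 + ((r - m) - 1 - i) / W = ((W - 1 - i) + (r - m)) / W := by
      field_simp
      ring
    rw [e9]
    exact div_nonneg (by linarith) (by linarith)
  rw [sum_congr rfl e4, sum_congr rfl e4', ← sum_add_distrib]
  have e10 : ∀ i ∈ range W, (1 - (r - m) + (i : ℝ)) / W + (1 + ((r - m) - 1 - i) / W) = 1 := by
    intro i _
    field_simp
    ring
  rw [sum_congr rfl e10, sum_const, card_range, nsmul_eq_mul, mul_one]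

/-! ### The sum over the second rows of one first row -/

/-- the terms of the triangle sum over a larger set -/
theorem l4T_eq {h0 Q n0 : ℕ} {V : ℕ × ℕ} (hV : 1 ≤ V.1) (β : ℕ × ℕ → ℂ) (J N T : ℕ) (hN : 1 ≤ N) (hJ : J < T) :
    l4T h0 Q n0 β J N V = ∑ B ∈ c3B h0 Q n0 0 (T + N) V, β (B.1, B.2) * ((rho J N ((B.1 : ℝ) / V.1) : ℝ) : ℂ) := by
  classical
  have hV0 : (0 : ℝ) < V.1 := by exact_mod_cast hV
  unfold l4T
  refine sum_subset ?_ ?_
  · intro B hB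
    rw [c3_memB hV] at hB ⊢
    obtain ⟨h1, h2, h3, h4⟩ := hB
    refine ⟨h1, h2, by omega, h4.trans ?_⟩
    exact Nat.mul_le_mul_right _ (by omega)
  · intro B hB hB'
    rw [c3_memB hV] at hB hB'
    obtain ⟨h1, h2, -, -⟩ := hB
    by_contra h5
    have h6 : rho J N ((B.1 : ℝ) / V.1) ≠ 0 := by
      intro h7
      apply h5
      rw [h7]
      simp
    obtain ⟨h7, h8⟩ := apxn_rho_ne hN h6
    rw [lt_div_iff₀ hV0] at h7
    rw [div_lt_iff₀ hV0] at h8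
    apply hB'
    refine ⟨h1, h2, ?_, ?_⟩
    · exact_mod_cast h7.le
    · exact_mod_cast h8.le

theorem row_le {h0 Q n0 : ℕ} (hQ : HQ h0 Q n0) {V : ℕ × ℕ} (hV : 1 ≤ V.1) (β : ℕ × ℕ → ℂ) (hβ : ∀ z, ‖β z‖ ≤ 1)
    (J0 W T : ℕ) (hW : 1 ≤ W) :
    ‖∑ B ∈ rT h0 Q n0 T V, β B‖ ≤ (∑ J ∈ Ico J0 T, ‖l4T h0 Q n0 β J (2 * W) V‖) / W + 2 * (J0 + 4 * W + 2) := by
  classical
  have hV0 : (0 : ℝ) < V.1 := by exact_mod_cast hV
  have hW0 : (1 : ℝ) ≤ W := by exact_mod_cast hW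
  have hN : 1 ≤ 2 * W := by omega
  set 𝓑 := c3B h0 Q n0 0 (T + 2 * W) V with h𝓑
  have hmem : ∀ B ∈ 𝓑, V.1 * B.2 = V.2 * B.1 + h0 ∧ V.2 * B.1 ≡ n0 [MOD Q] ∧ B.1 ≤ (T + 2 * W) * V.1 := by
    intro B hB
    rw [h𝓑, c3_memB hV] at hB
    refine ⟨hB.1, hB.2.1, ?_⟩
    have := hB.2.2.2
    rwa [Nat.zero_add] at this
  -- the two expressions over `𝓑`
  have e1 : ∑ J ∈ Ico J0 T, l4T h0 Q n0 β J (2 * W) V =
      ∑ B ∈ 𝓑, β B * ((sR J0 T (2 * W) ((B.1 : ℝ) / V.1) : ℝ) : ℂ) := by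
    have e2 : ∀ J ∈ Ico J0 T, l4T h0 Q n0 β J (2 * W) V =
        ∑ B ∈ 𝓑, β B * ((rho J (2 * W) ((B.1 : ℝ) / V.1) : ℝ) : ℂ) := by
      intro J hJ
      rw [mem_Ico] at hJ
      exact l4T_eq hV β J (2 * W) T hN hJ.2
    rw [sum_congr rfl e2, sum_comm]
    refine sum_congr rfl fun B _ => ?_
    unfold sR
    rw [← mul_sum]
    push_cast
    rfl
  have e3 : ∑ B ∈ rT h0 Q n0 T V, β B = ∑ B ∈ 𝓑, if B.1 < T * V.1 then β B else 0 := by
    rw [← sum_filter]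
    refine sum_congr ?_ fun _ _ => rfl
    ext B
    rw [mem_rT hV, mem_filter, h𝓑, c3_memB hV]
    unfold rR c3R
    constructor
    · rintro ⟨h1, h2, h3⟩
      refine ⟨⟨h1, h2, by omega, ?_⟩, h3⟩
      refine h3.le.trans (Nat.mul_le_mul_right _ (by omega))
    · rintro ⟨⟨h1, h2, -, -⟩, h3⟩
      exact ⟨h1, h2, h3⟩
  -- the difference
  have e4 : ‖(W : ℂ) * ∑ B ∈ rT h0 Q n0 T V, β B - ∑ J ∈ Ico J0 T, l4T h0 Q n0 β J (2 * W) V‖ ≤
      2 * W * (J0 + 4 * W + 2) := by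
    rw [e1, e3, mul_sum, ← sum_sub_distrib]
    have e5 : ‖∑ B ∈ 𝓑, ((W : ℂ) * (if B.1 < T * V.1 then β B else 0) -
        β B * ((sR J0 T (2 * W) ((B.1 : ℝ) / V.1) : ℝ) : ℂ))‖ ≤
        ∑ B ∈ 𝓑, if B ∈ c3B h0 Q n0 0 (J0 + 2 * W) V ∨ B ∈ c3B h0 Q n0 T (2 * W) V then (2 * W : ℝ) else 0 := by
      refine norm_sum_le_of_le _ fun B hB => ?_
      obtain ⟨h1, h2, h3⟩ := hmem B hB
      have hr0 : (0 : ℝ) ≤ (B.1 : ℝ) / V.1 := by positivity
      have hs0 := sR_nonneg J0 T (2 * W) ((B.1 : ℝ) / V.1)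
      have hs1 : sR J0 T (2 * W) ((B.1 : ℝ) / V.1) ≤ 2 * W := by
        have := sR_le J0 T (2 * W) hN _ hr0
        push_cast at this
        exact this
      by_cases hlt : B.1 < T * V.1
      · rw [if_pos hlt]
        have e6 : (W : ℂ) * β B - β B * ((sR J0 T (2 * W) ((B.1 : ℝ) / V.1) : ℝ) : ℂ) =
            β B * ((W - sR J0 T (2 * W) ((B.1 : ℝ) / V.1) : ℝ) : ℂ) := by
          push_cast
          ring
        rw [e6, norm_mul, Complex.norm_real, Real.norm_eq_abs]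
        by_cases hlo : B.1 ≤ (J0 + 2 * W) * V.1
        · have h4 : B ∈ c3B h0 Q n0 0 (J0 + 2 * W) V := by
            rw [c3_memB hV]
            exact ⟨h1, h2, by omega, by rw [Nat.zero_add]; exact hlo⟩
          rw [if_pos (Or.inl h4)]
          have h5 : |(W : ℝ) - sR J0 T (2 * W) ((B.1 : ℝ) / V.1)| ≤ 2 * W := by
            rw [abs_le]
            constructor <;> linarith
          calc ‖β B‖ * |(W : ℝ) - sR J0 T (2 * W) ((B.1 : ℝ) / V.1)| ≤ 1 * (2 * W) :=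
                mul_le_mul (hβ B) h5 (abs_nonneg _) zero_le_one
            _ = 2 * W := one_mul _
        · push Not at hlo
          have h4 : sR J0 T (2 * W) ((B.1 : ℝ) / V.1) = W := by
            apply sR_eq J0 T W hW
            · rw [le_div_iff₀ hV0]
              exact_mod_cast hlo.le
            · rw [div_le_iff₀ hV0]
              exact_mod_cast hlt.le
          rw [h4, sub_self, abs_zero, mul_zero]
          split_ifs <;> positivity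
      · rw [if_neg hlt, mul_zero, zero_sub, norm_neg, norm_mul, Complex.norm_real, Real.norm_eq_abs, abs_of_nonneg hs0]
        have h4 : B ∈ c3B h0 Q n0 T (2 * W) V := by
          rw [c3_memB hV]
          exact ⟨h1, h2, by omega, h3⟩
        rw [if_pos (Or.inr h4)]
        calc ‖β B‖ * sR J0 T (2 * W) ((B.1 : ℝ) / V.1) ≤ 1 * (2 * W) := mul_le_mul (hβ B) hs1 hs0 zero_le_one
          _ = 2 * W := one_mul _
    refine e5.trans ?_
    rw [← sum_filter, sum_const, nsmul_eq_mul]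
    have e6 : (𝓑.filter (fun B => B ∈ c3B h0 Q n0 0 (J0 + 2 * W) V ∨ B ∈ c3B h0 Q n0 T (2 * W) V)).card ≤
        J0 + 4 * W + 2 := by
      have e7 : 𝓑.filter (fun B => B ∈ c3B h0 Q n0 0 (J0 + 2 * W) V ∨ B ∈ c3B h0 Q n0 T (2 * W) V) ⊆
          c3B h0 Q n0 0 (J0 + 2 * W) V ∪ c3B h0 Q n0 T (2 * W) V := by
        intro B hB
        rw [mem_union]
        exact (mem_filter.1 hB).2
      have e8 := card_le_card e7
      have e9 := card_union_le (c3B h0 Q n0 0 (J0 + 2 * W) V) (c3B h0 Q n0 T (2 * W) V)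
      have e10 : (c3B h0 Q n0 0 (J0 + 2 * W) V).card ≤ J0 + 2 * W + 1 := r_cardB hQ hV
      have e11 : (c3B h0 Q n0 T (2 * W) V).card ≤ 2 * W + 1 := r_cardB hQ hV
      omega
    have e7 : ((𝓑.filter (fun B => B ∈ c3B h0 Q n0 0 (J0 + 2 * W) V ∨ B ∈ c3B h0 Q n0 T (2 * W) V)).card : ℝ) ≤
        J0 + 4 * W + 2 := by exact_mod_cast e6
    calc _ ≤ ((J0 : ℝ) + 4 * W + 2) * (2 * W) := mul_le_mul_of_nonneg_right e7 (by positivity)
      _ = 2 * W * (J0 + 4 * W + 2) := by ring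
  have e5 : ‖(W : ℂ) * ∑ B ∈ rT h0 Q n0 T V, β B‖ ≤
      (∑ J ∈ Ico J0 T, ‖l4T h0 Q n0 β J (2 * W) V‖) + 2 * W * (J0 + 4 * W + 2) := by
    have e6 : (W : ℂ) * ∑ B ∈ rT h0 Q n0 T V, β B = ∑ J ∈ Ico J0 T, l4T h0 Q n0 β J (2 * W) V +
        ((W : ℂ) * ∑ B ∈ rT h0 Q n0 T V, β B - ∑ J ∈ Ico J0 T, l4T h0 Q n0 β J (2 * W) V) := by ring
    rw [e6]
    exact (norm_add_le _ _).trans (add_le_add (norm_sum_le _ _) e4)
  rw [norm_mul, Complex.norm_natCast] at e5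
  have e6 : ‖∑ B ∈ rT h0 Q n0 T V, β B‖ ≤
      ((∑ J ∈ Ico J0 T, ‖l4T h0 Q n0 β J (2 * W) V‖) + 2 * W * (J0 + 4 * W + 2)) / W := by
    rw [le_div_iff₀ (by linarith)]
    linarith
  refine e6.trans (le_of_eq ?_)
  field_simp

/-! ### The mean over the first rows -/

theorem l1_rows (h0 Q n0 : ℕ) (hQ : HQ h0 Q n0) (β : ℕ × ℕ → ℂ) (hβ : ∀ z, ‖β z‖ ≤ 1) (h : ℝ → ℝ)
    (hh0 : ∀ y, 0 ≤ h y) (hh1 : ∀ y, h y ≤ 1) (hlo : ∀ y, y ≤ 0 → h y = 0) (h2 : ℝ) (hh2 : ∀ y, h2 ≤ y → h y = 0)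
    (J N : ℕ) (hJ : 1 ≤ J) (hN : 1 ≤ N) (X : ℝ) (hX : 1 ≤ X) (hh2' : 1 ≤ h2) :
    (∑ V ∈ c3A (h2 * X), wV h X V.1 V.2 * ‖l4T h0 Q n0 β J N V‖) ^ 2 ≤
      3 * h2 * X * (3 * h2 * X * (N + 1) +
        2 * ‖∑ n ∈ Icc 1 N, Gm4 h0 Q n0 β h J N n (((J + N) ^ 2 * (h0 + 1) * h2) * X) X‖) := by
  classical
  set α : ℕ × ℕ → ℂ := fun V => (starRingEnd ℂ) (l4T h0 Q n0 β J N V) / ‖l4T h0 Q n0 β J N V‖ with hα
  have hα1 : ∀ z, ‖α z‖ ≤ 1 := by
    intro z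
    rw [hα]
    simp only
    rw [norm_div, RCLike.norm_conj, Complex.norm_real, norm_norm]
    exact div_self_le_one _
  have h3 := csN4 h0 Q n0 hQ α β hα1 hβ h hh0 hh1 hlo h2 hh2 J N hJ hN X hX hh2' ((J + N) * h2 * X)
    (((J + N) ^ 2 * (h0 + 1) * h2) * X) le_rfl le_rfl
  rw [l4_SX h0 Q n0 hQ α β h h2 hh2 J N hJ hN X hX ((J + N) * h2 * X) le_rfl] at h3
  have h4 : ∑ V ∈ c3A (h2 * X), α (V.1, V.2) * ((wV h X V.1 V.2 : ℝ) : ℂ) * l4T h0 Q n0 β J N V =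
      ((∑ V ∈ c3A (h2 * X), wV h X V.1 V.2 * ‖l4T h0 Q n0 β J N V‖ : ℝ) : ℂ) := by
    push_cast
    refine sum_congr rfl fun V _ => ?_
    rw [hα]
    simp only [Prod.mk.eta]
    by_cases h5 : l4T h0 Q n0 β J N V = 0
    · rw [h5]
      simp
    · have h6 : ((‖l4T h0 Q n0 β J N V‖ : ℝ) : ℂ) ≠ 0 := by
        rw [Complex.ofReal_ne_zero]
        exact norm_ne_zero_iff.2 h5
      have h7 : (starRingEnd ℂ) (l4T h0 Q n0 β J N V) * l4T h0 Q n0 β J N V =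
          ((‖l4T h0 Q n0 β J N V‖ : ℝ) : ℂ) ^ 2 := by
        rw [mul_comm, Complex.mul_conj, Complex.normSq_eq_norm_sq]
        push_cast
        rfl
      calc (starRingEnd ℂ) (l4T h0 Q n0 β J N V) / ((‖l4T h0 Q n0 β J N V‖ : ℝ) : ℂ) *
            ((wV h X V.1 V.2 : ℝ) : ℂ) * l4T h0 Q n0 β J N V =
            ((starRingEnd ℂ) (l4T h0 Q n0 β J N V) * l4T h0 Q n0 β J N V) / ((‖l4T h0 Q n0 β J N V‖ : ℝ) : ℂ) *
              ((wV h X V.1 V.2 : ℝ) : ℂ) := by ring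
        _ = ((wV h X V.1 V.2 : ℝ) : ℂ) * ((‖l4T h0 Q n0 β J N V‖ : ℝ) : ℂ) := by
          rw [h7]
          field_simp
  rw [h4, Complex.norm_real, Real.norm_eq_abs, sq_abs] at h3
  exact h3

end Pool.Agent.SplR
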