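import Pool.Agent.Lib_MP_92ef0c_rw.R1

/-!
# MP_92ef0c_nt, law for almost all pairs of moduli: the mean over a dyadic box of first rows
-/

set_option autoImplicit false

namespace Pool.Agent.SplR

open Finset Pool.Agent.Spl Pool.Agent.SplB Pool.Agent.SplL Pool.Agent.GaussMR Pool.Agent.OmAll Pool.Agent.OmEq
  MeasureTheory Filter

open Classical in
/-- the pairs `(a, b)` with `√X < a, b ≤ 2 √X` -/
noncomputable def bx (X : ℝ) : Finset (ℕ × ℕ) :=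
  (Icc 1 ⌊2 * Real.sqrt X⌋₊ ×ˢ Icc 1 ⌊2 * Real.sqrt X⌋₊).filter (fun V => Real.sqrt X < V.1 ∧ Real.sqrt X < V.2)

theorem mem_bx {X : ℝ} {V : ℕ × ℕ} : V ∈ bx X ↔ (Real.sqrt X < V.1 ∧ (V.1 : ℝ) ≤ 2 * Real.sqrt X) ∧
    (Real.sqrt X < V.2 ∧ (V.2 : ℝ) ≤ 2 * Real.sqrt X) := by
  classical
  have hs : 0 ≤ Real.sqrt X := Real.sqrt_nonneg X
  unfold bx
  rw [mem_filter, mem_product, mem_Icc, mem_Icc, Nat.le_floor_iff (by linarith), Nat.le_floor_iff (by linarith)]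
  constructor
  · rintro ⟨⟨⟨-, h1⟩, ⟨-, h2⟩⟩, h3, h4⟩
    exact ⟨⟨h3, h1⟩, h4, h2⟩
  · rintro ⟨⟨h3, h1⟩, h4, h2⟩
    have p1 : (0 : ℝ) < V.1 := hs.trans_lt h3
    have p2 : (0 : ℝ) < V.2 := hs.trans_lt h4
    have q1 : 0 < V.1 := by exact_mod_cast p1
    have q2 : 0 < V.2 := by exact_mod_cast p2
    exact ⟨⟨⟨q1, h1⟩, ⟨q2, h2⟩⟩, h3, h4⟩

/-- the cut-off: one on `[1, 4]`, zero off `[1/2, 5]` -/
noncomputable def th (y : ℝ) : ℝ := max 0 (min 1 (min (2 * y - 1) (5 - y)))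

theorem th_hf : HF th (1 / 2) 5 := by
  refine ⟨?_, fun y => le_max_left _ _, fun y => max_le zero_le_one (min_le_left _ _), by norm_num, by norm_num, ?_, ?_⟩
  · unfold th
    fun_prop
  · intro y hy
    unfold th
    refine max_eq_left ((min_le_right _ _).trans ((min_le_left _ _).trans (by linarith)))
  · intro y hy
    unfold th
    refine max_eq_left ((min_le_right _ _).trans ((min_le_right _ _).trans (by linarith)))

theorem th_one {y : ℝ} (h1 : 1 ≤ y) (h2 : y ≤ 4) : th y = 1 := by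
  unfold th
  rw [min_eq_left (le_min (by linarith) (by linarith)), max_eq_right zero_le_one]

/-- the weight in the box -/
theorem wV_low {X : ℝ} (hX : 0 < X) {V : ℕ × ℕ} (hV : V ∈ bx X) : 3 / 10 ≤ wV th X V.1 V.2 := by
  rw [mem_bx] at hV
  obtain ⟨⟨h1, h2⟩, h3, h4⟩ := hV
  have hs : 0 < Real.sqrt X := Real.sqrt_pos.2 hX
  have hss : Real.sqrt X * Real.sqrt X = X := Real.mul_self_sqrt hX.le
  have p1 : (0 : ℝ) < V.1 := hs.trans h1
  have p2 : (0 : ℝ) < V.2 := hs.trans h3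
  unfold wV
  rw [th_one (y := (V.1 : ℝ) * V.2 / X), one_mul]
  · unfold ps0
    refine le_max_of_le_right ?_
    have hl2 : Real.log 2 < 0.6931471808 := Real.log_two_lt_d9
    have e1 : Real.log V.1 - Real.log V.2 ≤ Real.log 2 := by
      rw [← Real.log_div p1.ne' p2.ne']
      refine Real.log_le_log (div_pos p1 p2) ?_
      rw [div_le_iff₀ p2]
      linarith
    have e2 : -Real.log 2 ≤ Real.log V.1 - Real.log V.2 := by
      have e3 : Real.log V.2 - Real.log V.1 ≤ Real.log 2 := by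
        rw [← Real.log_div p2.ne' p1.ne']
        refine Real.log_le_log (div_pos p2 p1) ?_
        rw [div_le_iff₀ p1]
        linarith
      linarith
    have e4 : |Real.log V.1 - Real.log V.2| ≤ Real.log 2 := abs_le.2 ⟨e2, e1⟩
    norm_num at hl2 ⊢
    linarith
  · rw [le_div_iff₀ hX, one_mul, ← hss]
    exact mul_le_mul h1.le h3.le hs.le p1.le
  · rw [div_le_iff₀ hX, ← hss]
    have : (V.1 : ℝ) * V.2 ≤ (2 * Real.sqrt X) * (2 * Real.sqrt X) := mul_le_mul h2 h4 p2.le (by linarith)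
    linarith

theorem bx_sub {X : ℝ} (hX : 0 ≤ X) : bx X ⊆ c3A (5 * X) := by
  intro V hV
  have hV' := hV
  rw [mem_bx] at hV
  obtain ⟨⟨h1, h2⟩, h3, h4⟩ := hV
  have hs : 0 ≤ Real.sqrt X := Real.sqrt_nonneg X
  have p1 : (0 : ℝ) < V.1 := hs.trans_lt h1
  have p2 : (0 : ℝ) < V.2 := hs.trans_lt h3
  have hle : 2 * Real.sqrt X ≤ Real.sqrt (Real.exp 1 * (5 * X)) := by
    apply Real.le_sqrt_of_sq_le
    have he : (1 : ℝ) ≤ Real.exp 1 := Real.one_le_exp zero_le_one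
    rw [mul_pow, Real.sq_sqrt hX]
    nlinarith
  unfold c3A
  rw [mem_product, mem_Icc, mem_Icc]
  refine ⟨⟨by exact_mod_cast p1, Nat.le_floor (h2.trans hle)⟩, by exact_mod_cast p2, Nat.le_floor (h4.trans hle)⟩

theorem row_small (h0 Q n0 : ℕ) (hQ : HQ h0 Q n0) (β : ℝ → ℕ × ℕ → ℂ) (hβ : ∀ X z, ‖β X z‖ ≤ 1)
    (hG : GmSmall4 h0 Q n0 β) (δ : ℝ) (hδ : 0 < δ) : ∃ T0 : ℕ, ∀ T : ℕ, T0 ≤ T → ∀ᶠ X : ℝ in atTop,
      ∑ V ∈ bx X, ‖∑ B ∈ rT h0 Q n0 T V, β X B‖ ≤ δ * T * X := by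
  classical
  set κ : ℝ := 3 * δ / 40 with hκ
  have hκ0 : 0 < κ := by positivity
  set ε : ℝ := κ ^ 2 / 60 with hε
  have hε0 : 0 < ε := by positivity
  obtain ⟨N0, hN0⟩ := hG th (1 / 2) 5 th_hf ε hε0
  obtain ⟨N1, hN1⟩ := exists_nat_ge (900 / κ ^ 2)
  set W : ℕ := max N0 (max N1 1) with hW
  have hW1 : 1 ≤ W := (le_max_right _ _).trans (le_max_right _ _)
  have hW0 : (1 : ℝ) ≤ W := by exact_mod_cast hW1
  have hWN : N0 ≤ 2 * W := by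
    have : N0 ≤ W := le_max_left _ _
    omega
  have hWN1 : 900 / κ ^ 2 ≤ W := hN1.trans (by exact_mod_cast (le_max_left _ _).trans (le_max_right _ _))
  have hN : 1 ≤ 2 * W := by omega
  obtain ⟨J1, hJ1⟩ := hN0 (2 * W) hWN
  set J0 : ℕ := max J1 1 with hJ0
  have hJ01 : 1 ≤ J0 := le_max_right _ _
  obtain ⟨T0, hT0⟩ := exists_nat_ge (200 * (J0 + 4 * W + 2) / δ)
  refine ⟨T0, fun T hT => ?_⟩
  have hTδ : 200 * (J0 + 4 * W + 2) ≤ δ * T := by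
    have h1 : 200 * ((J0 : ℝ) + 4 * W + 2) / δ ≤ T := hT0.trans (by exact_mod_cast hT)
    rw [div_le_iff₀ hδ] at h1
    linarith
  have hev : ∀ᶠ X : ℝ in atTop, ∀ J ∈ Ico J0 T,
      ‖∑ n ∈ Icc 1 (2 * W), Gm4 h0 Q n0 (β (1 * X)) th J (2 * W) n
        ((((J : ℝ) + ((2 * W : ℕ) : ℝ)) ^ 2 * (h0 + 1) * 5) * X) X‖ ≤ ε * ((2 * W : ℕ) : ℝ) ^ 2 * X := by
    rw [Filter.eventually_all_finset]
    intro J hJ
    rw [mem_Ico] at hJ
    exact hJ1 J ((le_max_left _ _).trans hJ.1) 1 one_pos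
  filter_upwards [hev, eventually_ge_atTop (1 : ℝ)] with X hX hX1
  have hX0 : (0 : ℝ) < X := by linarith
  -- each triangle sum
  have key : ∀ J ∈ Ico J0 T, ∑ V ∈ c3A (5 * X), wV th X V.1 V.2 * ‖l4T h0 Q n0 (β X) J (2 * W) V‖ ≤
      2 * κ * W * X := by
    intro J hJ
    have h1 := hX J hJ
    rw [one_mul] at h1
    rw [mem_Ico] at hJ
    have h2 := l1_rows h0 Q n0 hQ (β X) (hβ X) th th_hf.nn th_hf.le (fun y hy => th_hf.lo y (by linarith)) 5 th_hf.hi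
      J (2 * W) (hJ01.trans hJ.1) hN X hX1 (by norm_num)
    have h3 : 3 * 5 * X * (3 * 5 * X * (((2 * W : ℕ) : ℝ) + 1) +
        2 * ‖∑ n ∈ Icc 1 (2 * W), Gm4 h0 Q n0 (β X) th J (2 * W) n
          ((((J : ℝ) + ((2 * W : ℕ) : ℝ)) ^ 2 * (h0 + 1) * 5) * X) X‖) ≤ (2 * κ * W * X) ^ 2 := by
      have h4 : 3 * 5 * X * (3 * 5 * X * (((2 * W : ℕ) : ℝ) + 1) +
          2 * ‖∑ n ∈ Icc 1 (2 * W), Gm4 h0 Q n0 (β X) th J (2 * W) n
            ((((J : ℝ) + ((2 * W : ℕ) : ℝ)) ^ 2 * (h0 + 1) * 5) * X) X‖) ≤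
          3 * 5 * X * (3 * 5 * X * (3 * W) + 2 * (ε * (2 * W) ^ 2 * X)) := by
        push_cast at h1 ⊢
        gcongr
        linarith
      refine h4.trans ?_
      have h5 : (900 : ℝ) ≤ W * κ ^ 2 := by
        rwa [div_le_iff₀ (by positivity)] at hWN1
      have h6 : 3 * 5 * X * (3 * 5 * X * (3 * W) + 2 * (ε * (2 * W) ^ 2 * X)) =
          (675 * W + 2 * κ ^ 2 * W ^ 2) * X ^ 2 := by
        rw [hε]
        ring
      have h7 : (2 * κ * W * X) ^ 2 = (4 * κ ^ 2 * W ^ 2) * X ^ 2 := by ring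
      rw [h6, h7]
      apply mul_le_mul_of_nonneg_right _ (by positivity)
      nlinarith [mul_le_mul_of_nonneg_right h5 (by linarith : (0 : ℝ) ≤ W)]
    exact le_of_sq_le_sq (h2.trans h3) (by positivity)
  -- summation
  have hcard : ((c3A (5 * X)).card : ℝ) ≤ 15 * X := by
    have := c3_cardA (Y := 5 * X) (by positivity)
    linarith
  have h1 : ∀ V ∈ bx X, ‖∑ B ∈ rT h0 Q n0 T V, β X B‖ ≤ 10 / 3 * (wV th X V.1 V.2 *
      ((∑ J ∈ Ico J0 T, ‖l4T h0 Q n0 (β X) J (2 * W) V‖) / W + 2 * (J0 + 4 * W + 2))) := by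
    intro V hV
    have hw := wV_low hX0 hV
    have hV1 : 1 ≤ V.1 := (c3_memA (bx_sub hX0.le hV)).1
    have h2 := row_le hQ hV1 (β X) (hβ X) J0 W T hW1
    have h3 : 0 ≤ (∑ J ∈ Ico J0 T, ‖l4T h0 Q n0 (β X) J (2 * W) V‖) / W + 2 * (J0 + 4 * W + 2) := by positivity
    nlinarith
  have h2 : ∑ V ∈ bx X, ‖∑ B ∈ rT h0 Q n0 T V, β X B‖ ≤ ∑ V ∈ c3A (5 * X), 10 / 3 * (wV th X V.1 V.2 *
      ((∑ J ∈ Ico J0 T, ‖l4T h0 Q n0 (β X) J (2 * W) V‖) / W + 2 * (J0 + 4 * W + 2))) := by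
    refine (sum_le_sum h1).trans (sum_le_sum_of_subset_of_nonneg (bx_sub hX0.le) fun V _ _ => ?_)
    have hw := c3_wV_nonneg th_hf.nn X V.1 V.2
    positivity
  have h3 : ∑ V ∈ c3A (5 * X), 10 / 3 * (wV th X V.1 V.2 *
      ((∑ J ∈ Ico J0 T, ‖l4T h0 Q n0 (β X) J (2 * W) V‖) / W + 2 * (J0 + 4 * W + 2))) =
      10 / 3 * ((∑ J ∈ Ico J0 T, ∑ V ∈ c3A (5 * X), wV th X V.1 V.2 * ‖l4T h0 Q n0 (β X) J (2 * W) V‖) / W +
        2 * (J0 + 4 * W + 2) * ∑ V ∈ c3A (5 * X), wV th X V.1 V.2) := by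
    rw [← mul_sum, sum_comm, mul_sum (s := c3A (5 * X)) (a := 2 * ((J0 : ℝ) + 4 * W + 2)), sum_div, ← sum_add_distrib]
    congr 1
    refine sum_congr rfl fun V _ => ?_
    rw [← mul_sum]
    ring
  have h4 : ∑ J ∈ Ico J0 T, ∑ V ∈ c3A (5 * X), wV th X V.1 V.2 * ‖l4T h0 Q n0 (β X) J (2 * W) V‖ ≤
      T * (2 * κ * W * X) := by
    refine (sum_le_sum key).trans ?_
    rw [sum_const, nsmul_eq_mul, Nat.card_Ico]
    refine mul_le_mul_of_nonneg_right ?_ (by positivity)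
    exact_mod_cast Nat.sub_le T J0
  have h5 : ∑ V ∈ c3A (5 * X), wV th X V.1 V.2 ≤ 15 * X := by
    refine (sum_le_sum fun V _ => c3_wV_le th_hf.nn th_hf.le X V.1 V.2).trans ?_
    rw [sum_const, nsmul_eq_mul, mul_one]
    exact hcard
  refine h2.trans ?_
  rw [h3]
  have h6 : (∑ J ∈ Ico J0 T, ∑ V ∈ c3A (5 * X), wV th X V.1 V.2 * ‖l4T h0 Q n0 (β X) J (2 * W) V‖) / W ≤
      2 * κ * T * X := by
    rw [div_le_iff₀ (by linarith)]
    linarith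
  have h7 : 2 * ((J0 : ℝ) + 4 * W + 2) * ∑ V ∈ c3A (5 * X), wV th X V.1 V.2 ≤ 2 * ((J0 : ℝ) + 4 * W + 2) * (15 * X) :=
    mul_le_mul_of_nonneg_left h5 (by positivity)
  have h8 : 30 * ((J0 : ℝ) + 4 * W + 2) * X ≤ 30 / 200 * (δ * T) * X := by
    apply mul_le_mul_of_nonneg_right _ hX0.le
    linarith
  calc _ ≤ 10 / 3 * (2 * κ * T * X + 2 * ((J0 : ℝ) + 4 * W + 2) * (15 * X)) := by linarith
    _ ≤ δ * T * X := by
      rw [hκ]
      nlinarith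

end Pool.Agent.SplR
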