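import Pool.Agent.Lib_MP_92ef0c_rw.R2
import Pool.Agent.Lib_MP_92ef0c_m.M45
import Pool.Agent.Lib_MP_92ef0c_m.M56

/-!
# MP_92ef0c_nt, law for almost all pairs of moduli: the law in one residue class, in the mean over the first rows
-/

set_option autoImplicit false

namespace Pool.Agent.SplR

open Finset Pool.Agent.Spl Pool.Agent.SplB Pool.Agent.SplL Pool.Agent.OmEq
  Pool.Agent.LPr MeasureTheory Filter

/-- the conditions on the second row -/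
def OC (q s s' r r' : ℕ) (u v u' v' : ℕ → ℝ) (l l' : ℕ → ℕ) (y : ℝ) (B : ℕ × ℕ) : Prop :=
  (ArithmeticFunction.cardFactors B.1 ≡ s [MOD q] ∧ ∀ i < r, wc y (u i) (v i) B.1 = l i) ∧
    (ArithmeticFunction.cardFactors B.2 ≡ s' [MOD q] ∧ ∀ i < r', wc y (u' i) (v' i) B.2 = l' i)

theorem cf_le {q K : ℕ} (hq : 0 < q) (hK : 0 < K) (r s : ℕ) (k : ℕ → ℕ) (p : ℕ × (Fin r → ℕ)) :
    ‖cf q K r s k p‖ ≤ 1 := by
  unfold cf
  have h1 : ∏ i : Fin r, ‖(zq K ^ (p.2 i * k i))⁻¹‖ = 1 :=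
    prod_eq_one fun i _ => by rw [norm_inv, fine_norm K hK, inv_one]
  rw [norm_mul, norm_div, norm_div, norm_inv, fine_norm q hq, norm_prod, norm_pow, Complex.norm_natCast,
    Complex.norm_natCast, h1, inv_one]
  have hq1 : (1 : ℝ) ≤ q := by exact_mod_cast hq
  have hK1 : (1 : ℝ) ≤ (K : ℝ) ^ r := one_le_pow₀ (by exact_mod_cast hK)
  have h2 : (1 : ℝ) / q ≤ 1 := by
    rw [div_le_one (by linarith)]
    exact hq1
  have h3 : (1 : ℝ) / (K : ℝ) ^ r ≤ 1 := by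
    rw [div_le_one (by linarith)]
    exact hK1
  exact mul_le_one₀ h2 (by positivity) h3

/-- the entries of the second rows -/
theorem rT_ent {h0 Q n0 : ℕ} (hQ : HQ h0 Q n0) (T : ℕ) : ∀ᶠ X : ℝ in atTop, ∀ V ∈ bx X, ∀ B ∈ rT h0 Q n0 T V,
    (B.1 ≠ 0 ∧ B.1.Coprime Q ∧ (B.1 : ℝ) ≤ Real.sqrt X ^ 3) ∧
      (B.2 ≠ 0 ∧ B.2.Coprime Q ∧ (B.2 : ℝ) ≤ Real.sqrt X ^ 3) := by
  have hs : ∀ᶠ X : ℝ in atTop, (4 * T + h0 + 1 : ℝ) ≤ Real.sqrt X := Real.tendsto_sqrt_atTop.eventually_ge_atTop _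
  filter_upwards [hs, eventually_ge_atTop (1 : ℝ)] with X hX hX1 V hV B hB
  have hX0 : (0 : ℝ) ≤ X := by linarith
  have hT0 : (0 : ℝ) ≤ T := Nat.cast_nonneg T
  have hh0 : (0 : ℝ) ≤ h0 := Nat.cast_nonneg h0
  have hsq : Real.sqrt X * Real.sqrt X = X := Real.mul_self_sqrt hX0
  have hs1 : (1 : ℝ) ≤ Real.sqrt X := by linarith
  obtain ⟨⟨v1, v2⟩, v3, v4⟩ := mem_bx.1 hV
  have hV1 : 1 ≤ V.1 := by
    have : (0 : ℝ) < V.1 := by linarith
    exact_mod_cast this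
  obtain ⟨e1, e2, e3⟩ := (mem_rT hV1).1 hB
  obtain ⟨-, c1, c2⟩ := r_facts hQ e1 e2
  have h3 : Real.sqrt X ^ 3 = Real.sqrt X * X := by
    calc Real.sqrt X ^ 3 = Real.sqrt X * (Real.sqrt X * Real.sqrt X) := by ring
      _ = Real.sqrt X * X := by rw [hsq]
  have hB1 : (B.1 : ℝ) < T * V.1 := by exact_mod_cast e3
  have hB1' : (B.1 : ℝ) ≤ 2 * T * Real.sqrt X := by
    have := mul_le_mul_of_nonneg_left v2 hT0
    linarith
  have hXs : Real.sqrt X ≤ X := by nlinarith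
  refine ⟨⟨?_, c1, ?_⟩, ?_, c2, ?_⟩
  · intro h
    rw [h, mul_zero, zero_add] at e1
    have h4 : V.1 ≤ h0 := Nat.le_of_dvd hQ.pos (Dvd.intro _ e1)
    have h5 : (V.1 : ℝ) ≤ h0 := by exact_mod_cast h4
    linarith
  · rw [h3]
    have : 2 * T * Real.sqrt X ≤ X * Real.sqrt X := mul_le_mul_of_nonneg_right (by linarith) (by linarith)
    linarith
  · intro h
    rw [h, mul_zero] at e1
    have := hQ.pos
    omega
  · rw [h3]
    have h4 : (V.1 : ℝ) * B.2 = V.2 * B.1 + h0 := by exact_mod_cast e1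
    have h5 : (B.2 : ℝ) ≤ V.1 * B.2 := by
      have hv : (1 : ℝ) ≤ V.1 := by exact_mod_cast hV1
      have hb : (0 : ℝ) ≤ B.2 := Nat.cast_nonneg _
      nlinarith
    have h6 : (V.2 : ℝ) * B.1 ≤ (2 * Real.sqrt X) * (2 * T * Real.sqrt X) :=
      mul_le_mul v4 hB1' (Nat.cast_nonneg _) (by positivity)
    have h7 : (2 * Real.sqrt X) * (2 * T * Real.sqrt X) = 4 * T * X := by
      calc (2 * Real.sqrt X) * (2 * T * Real.sqrt X) = 4 * T * (Real.sqrt X * Real.sqrt X) := by ring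
        _ = 4 * T * X := by rw [hsq]
    have h8 : (4 * T + h0 : ℝ) * X ≤ Real.sqrt X * X := mul_le_mul_of_nonneg_right (by linarith) hX0
    nlinarith

theorem bx_card {X : ℝ} (hX : 0 ≤ X) : ((bx X).card : ℝ) ≤ 4 * X := by
  classical
  have h1 : (bx X).card ≤ ⌊2 * Real.sqrt X⌋₊ * ⌊2 * Real.sqrt X⌋₊ := by
    unfold bx
    refine (card_filter_le _ _).trans ?_
    rw [card_product, Nat.card_Icc, Nat.add_sub_cancel]
  have h2 : (⌊2 * Real.sqrt X⌋₊ : ℝ) ≤ 2 * Real.sqrt X := Nat.floor_le (by positivity)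
  have h3 : Real.sqrt X * Real.sqrt X = X := Real.mul_self_sqrt hX
  calc ((bx X).card : ℝ) ≤ ((⌊2 * Real.sqrt X⌋₊ * ⌊2 * Real.sqrt X⌋₊ : ℕ) : ℝ) := by exact_mod_cast h1
    _ = (⌊2 * Real.sqrt X⌋₊ : ℝ) * ⌊2 * Real.sqrt X⌋₊ := by push_cast; ring
    _ ≤ (2 * Real.sqrt X) * (2 * Real.sqrt X) := mul_le_mul h2 h2 (Nat.cast_nonneg _) (by positivity)
    _ = 4 * (Real.sqrt X * Real.sqrt X) := by ring
    _ = 4 * X := by rw [h3]

/-- the mean value of the indicator -/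
noncomputable def mv (Q q K : ℕ) (u v : ℕ → ℝ) (r s : ℕ) (l : ℕ → ℕ) (X : ℝ) : ℂ :=
  ∑ p ∈ ix q K r, cf q K r s l p * mf Q (fxr Q (zq q ^ p.1) (phg K u v r p.2)) X

theorem mv_lim (B : BS) {Q q K : ℕ} (hQ : 0 < Q) (hq : 0 < q) (hK : 0 < K) (u v : ℕ → ℝ) (r s : ℕ) (l : ℕ → ℕ)
    (hu : ∀ i < r, 0 < u i ∧ u i ≤ v i) :
    Tendsto (mv Q q K u v r s l) atTop (nhds (cG K u v r l / q)) := by
  rw [← cf_sum q hq K u v r s l]
  exact tendsto_finsetSum _ fun p _ =>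
    (mf_fx B q Q hq hQ _ (zq_root hq _) _ (phg_step K hK u v r hu _)).const_mul _

open Classical in
/-- the expansion for one first row -/
theorem row_id {h0 Q n0 : ℕ} (hQ : HQ h0 Q n0) (T : ℕ) {q K : ℕ} (hq : 0 < q) {u0 : ℝ} (hu0 : 0 < u0)
    (hKu : 3 < K * u0) (r r' : ℕ) (u v u' v' : ℕ → ℝ) (l l' : ℕ → ℕ) (hu : ∀ i < r, u0 ≤ u i)
    (hu' : ∀ i < r', u0 ≤ u' i) (hl : ∀ i < r, l i < K) (hl' : ∀ i < r', l' i < K) (s s' : ℕ) :
    ∀ᶠ X : ℝ in atTop, ∀ V ∈ bx X,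
      ((((rT h0 Q n0 T V).filter (OC q s s' r r' u v u' v' l l' (Real.sqrt X))).card : ℝ) : ℂ) =
        ∑ x ∈ ix q K r ×ˢ ix q K r', cf q K r s l x.1 * cf q K r' s' l' x.2 *
          (2 * ∑ B ∈ rT h0 Q n0 T V, bet Q (fxr Q (zq q ^ x.1.1) (phg K u v r x.1.2))
            (fxr Q (zq q ^ x.2.1) (phg K u' v' r' x.2.2)) X B) +
        mv Q q K u v r s l X * mv Q q K u' v' r' s' l' X * ((rT h0 Q n0 T V).card : ℂ) := by
  filter_upwards [rT_ent hQ T, Real.tendsto_sqrt_atTop.eventually_ge_atTop (2 : ℝ)] with X hX hX2 V hV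
  have hB : ∀ B ∈ rT h0 Q n0 T V, (if OC q s s' r r' u v u' v' l l' (Real.sqrt X) B then (1 : ℂ) else 0) =
      ∑ x ∈ ix q K r ×ˢ ix q K r', cf q K r s l x.1 * cf q K r' s' l' x.2 *
        (2 * bet Q (fxr Q (zq q ^ x.1.1) (phg K u v r x.1.2)) (fxr Q (zq q ^ x.2.1) (phg K u' v' r' x.2.2)) X B +
        mf Q (fxr Q (zq q ^ x.1.1) (phg K u v r x.1.2)) X *
          mf Q (fxr Q (zq q ^ x.2.1) (phg K u' v' r' x.2.2)) X) := by
    intro B hB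
    obtain ⟨⟨b1, b2, b3⟩, b4, b5, b6⟩ := hX V hV B hB
    have e1 := ind1 q hq Q K u0 hu0 hKu u v r hu l hl s (Real.sqrt X) hX2 B.1 b1 b3 b2
    have e2 := ind1 q hq Q K u0 hu0 hKu u' v' r' hu' l' hl' s' (Real.sqrt X) hX2 B.2 b4 b6 b5
    have e3 : (if OC q s s' r r' u v u' v' l l' (Real.sqrt X) B then (1 : ℂ) else 0) =
        (if ArithmeticFunction.cardFactors B.1 ≡ s [MOD q] ∧
          ∀ i < r, wc (Real.sqrt X) (u i) (v i) B.1 = l i then (1 : ℂ) else 0) *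
        (if ArithmeticFunction.cardFactors B.2 ≡ s' [MOD q] ∧
          ∀ i < r', wc (Real.sqrt X) (u' i) (v' i) B.2 = l' i then (1 : ℂ) else 0) := by
      unfold OC
      by_cases h1 : ArithmeticFunction.cardFactors B.1 ≡ s [MOD q] ∧
          ∀ i < r, wc (Real.sqrt X) (u i) (v i) B.1 = l i
      · by_cases h2 : ArithmeticFunction.cardFactors B.2 ≡ s' [MOD q] ∧
            ∀ i < r', wc (Real.sqrt X) (u' i) (v' i) B.2 = l' i
        · rw [if_pos ⟨h1, h2⟩, if_pos h1, if_pos h2, one_mul]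
        · rw [if_neg (fun h => h2 h.2), if_neg h2, mul_zero]
      · rw [if_neg (fun h => h1 h.1), if_neg h1, zero_mul]
    rw [e3, e1, e2, sum_mul_sum, ← sum_product']
    refine sum_congr rfl fun x _ => ?_
    have e4 : bet Q (fxr Q (zq q ^ x.1.1) (phg K u v r x.1.2)) (fxr Q (zq q ^ x.2.1) (phg K u' v' r' x.2.2)) X B =
        (1 / 2 : ℂ) * (fx Q (zq q ^ x.1.1) (phg K u v r x.1.2) (Real.sqrt X) B.1 *
          fx Q (zq q ^ x.2.1) (phg K u' v' r' x.2.2) (Real.sqrt X) B.2) +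
        (-(mf Q (fxr Q (zq q ^ x.1.1) (phg K u v r x.1.2)) X *
          mf Q (fxr Q (zq q ^ x.2.1) (phg K u' v' r' x.2.2)) X) / 2) := by
      unfold bet pf
      rw [f00_coprime b1 b2, f00_coprime b4 b5, mul_one, mul_one]
      rfl
    rw [e4]
    ring
  have h1 : ((((rT h0 Q n0 T V).filter (OC q s s' r r' u v u' v' l l' (Real.sqrt X))).card : ℝ) : ℂ) =
      ∑ B ∈ rT h0 Q n0 T V, (if OC q s s' r r' u v u' v' l l' (Real.sqrt X) B then (1 : ℂ) else 0) := by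
    rw [Complex.ofReal_natCast, card_filter]
    push_cast
    rfl
  rw [h1, sum_congr rfl hB, sum_comm]
  have h2 : mv Q q K u v r s l X * mv Q q K u' v' r' s' l' X * ((rT h0 Q n0 T V).card : ℂ) =
      ∑ x ∈ ix q K r ×ˢ ix q K r', cf q K r s l x.1 * cf q K r' s' l' x.2 *
        (mf Q (fxr Q (zq q ^ x.1.1) (phg K u v r x.1.2)) X *
          mf Q (fxr Q (zq q ^ x.2.1) (phg K u' v' r' x.2.2)) X * ((rT h0 Q n0 T V).card : ℂ)) := by
    unfold mv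
    rw [sum_mul_sum, ← sum_product', sum_mul]
    refine sum_congr rfl fun x _ => ?_
    ring
  rw [h2, ← sum_add_distrib]
  refine sum_congr rfl fun x _ => ?_
  rw [← mul_sum, sum_add_distrib, ← mul_sum, sum_const, nsmul_eq_mul]
  ring

open Classical in
/-- the law in one class, in the mean over the first rows -/
theorem class_law (B : BS) {h0 Q n0 : ℕ} (hQ : HQ h0 Q n0) {q K : ℕ} (hq : 0 < q) {u0 : ℝ} (hu0 : 0 < u0)
    (hKu : 3 < K * u0) (r r' : ℕ) (u v u' v' : ℕ → ℝ) (l l' : ℕ → ℕ) (hu : ∀ i < r, u0 ≤ u i ∧ u i ≤ v i)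
    (hu' : ∀ i < r', u0 ≤ u' i ∧ u' i ≤ v' i) (hl : ∀ i < r, l i < K) (hl' : ∀ i < r', l' i < K) (c c' : ℝ)
    (hc : (c : ℂ) = cG K u v r l) (hc' : (c' : ℂ) = cG K u' v' r' l') (s s' : ℕ) (δ : ℝ) (hδ : 0 < δ) :
    ∃ T0 : ℕ, ∀ T : ℕ, T0 ≤ T → ∀ᶠ X : ℝ in atTop, ∑ V ∈ bx X,
      |(((rT h0 Q n0 T V).filter (OC q s s' r r' u v u' v' l l' (Real.sqrt X))).card : ℝ) -
        c * c' / (q : ℝ) ^ 2 * ((rT h0 Q n0 T V).card : ℝ)| ≤ δ * T * X := by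
  have hK : 0 < K := by
    rcases Nat.eq_zero_or_pos K with h | h
    · rw [h, Nat.cast_zero, zero_mul] at hKu
      linarith
    · exact h
  have hu1 : ∀ i < r, 0 < u i ∧ u i ≤ v i := fun i hi => ⟨hu0.trans_le (hu i hi).1, (hu i hi).2⟩
  have hu1' : ∀ i < r', 0 < u' i ∧ u' i ≤ v' i := fun i hi => ⟨hu0.trans_le (hu' i hi).1, (hu' i hi).2⟩
  set S := ix q K r ×ˢ ix q K r' with hS
  set β : ((ℕ × (Fin r → ℕ)) × (ℕ × (Fin r' → ℕ))) → ℝ → ℕ × ℕ → ℂ := fun x =>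
    bet Q (fxr Q (zq q ^ x.1.1) (phg K u v r x.1.2)) (fxr Q (zq q ^ x.2.1) (phg K u' v' r' x.2.2)) with hβ
  set n1 : ℝ := (S.card : ℝ) with hn1
  have hn10 : 0 ≤ n1 := Nat.cast_nonneg _
  have hδ' : 0 < δ / (4 * (n1 + 1)) := by positivity
  have hex : ∀ x, ∃ T0 : ℕ, ∀ T : ℕ, T0 ≤ T → ∀ᶠ X : ℝ in atTop,
      ∑ V ∈ bx X, ‖∑ B ∈ rT h0 Q n0 T V, β x X B‖ ≤ δ / (4 * (n1 + 1)) * T * X := by
    intro x
    have hf := fs_fx Q (zq q ^ x.1.1) (fine_norm q hq _) _ (phg_step K hK u v r hu1 x.1.2)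
    have hg := fs_fx Q (zq q ^ x.2.1) (fine_norm q hq _) _ (phg_step K hK u' v' r' hu1' x.2.2)
    exact row_small h0 Q n0 hQ (β x) (bet_le hf hg)
      (gms_bet B hq h0 n0 hQ (zq_root hq _) (zq_root hq _) hf hg) _ hδ'
  choose T0 hT0 using hex
  refine ⟨∑ x ∈ S, T0 x + 1, fun T hT => ?_⟩
  have hTx : ∀ x ∈ S, T0 x ≤ T := fun x hx =>
    (single_le_sum (f := T0) (fun _ _ => Nat.zero_le _) hx).trans (by omega)
  have hT1 : (1 : ℝ) ≤ T := by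
    have : 1 ≤ T := by omega
    exact_mod_cast this
  have hev : ∀ᶠ X : ℝ in atTop, ∀ x ∈ S,
      ∑ V ∈ bx X, ‖∑ B ∈ rT h0 Q n0 T V, β x X B‖ ≤ δ / (4 * (n1 + 1)) * T * X :=
    (Finset.eventually_all S).2 fun x hx => hT0 x T (hTx x hx)
  have hlim : Tendsto (fun X : ℝ => mv Q q K u v r s l X * mv Q q K u' v' r' s' l' X) atTop
      (nhds ((c * c' / (q : ℝ) ^ 2 : ℝ) : ℂ)) := by
    have h1 := (mv_lim B hQ.posQ hq hK u v r s l hu1).mul (mv_lim B hQ.posQ hq hK u' v' r' s' l' hu1')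
    have h2 : cG K u v r l / q * (cG K u' v' r' l' / q) = ((c * c' / (q : ℝ) ^ 2 : ℝ) : ℂ) := by
      rw [← hc, ← hc']
      push_cast
      ring
    rwa [h2] at h1
  have hlim2 : ∀ᶠ X : ℝ in atTop, ‖mv Q q K u v r s l X * mv Q q K u' v' r' s' l' X -
      ((c * c' / (q : ℝ) ^ 2 : ℝ) : ℂ)‖ ≤ δ / 16 := by
    have h1 := (tendsto_iff_norm_sub_tendsto_zero.1 hlim).eventually (gt_mem_nhds (show (0 : ℝ) < δ / 16 by positivity))
    filter_upwards [h1] with X hX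
    exact hX.le
  have hlarge : ∀ᶠ X : ℝ in atTop, ∀ V ∈ bx X, 1 ≤ V.1 := by
    filter_upwards with X V hV
    have h1 := (mem_bx.1 hV).1.1
    have h2 : (0 : ℝ) < V.1 := (Real.sqrt_nonneg X).trans_lt h1
    exact_mod_cast h2
  filter_upwards [hev, hlim2, row_id hQ T hq hu0 hKu r r' u v u' v' l l' (fun i hi => (hu i hi).1)
    (fun i hi => (hu' i hi).1) hl hl' s s', hlarge, eventually_ge_atTop (0 : ℝ)] with X h1 h2 h3 h4 h5
  -- one first row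
  have hV : ∀ V ∈ bx X, |(((rT h0 Q n0 T V).filter (OC q s s' r r' u v u' v' l l' (Real.sqrt X))).card : ℝ) -
      c * c' / (q : ℝ) ^ 2 * ((rT h0 Q n0 T V).card : ℝ)| ≤
      ∑ x ∈ S, 2 * ‖∑ B ∈ rT h0 Q n0 T V, β x X B‖ + δ / 16 * (T + 1) := by
    intro V hV
    rw [← Real.norm_eq_abs, ← Complex.norm_real, Complex.ofReal_sub, h3 V hV]
    have e1 : ∑ x ∈ S, cf q K r s l x.1 * cf q K r' s' l' x.2 * (2 * ∑ B ∈ rT h0 Q n0 T V, β x X B) +
        mv Q q K u v r s l X * mv Q q K u' v' r' s' l' X * ((rT h0 Q n0 T V).card : ℂ) -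
        ((c * c' / (q : ℝ) ^ 2 * ((rT h0 Q n0 T V).card : ℝ) : ℝ) : ℂ) =
        ∑ x ∈ S, cf q K r s l x.1 * cf q K r' s' l' x.2 * (2 * ∑ B ∈ rT h0 Q n0 T V, β x X B) +
        (mv Q q K u v r s l X * mv Q q K u' v' r' s' l' X - ((c * c' / (q : ℝ) ^ 2 : ℝ) : ℂ)) *
          ((rT h0 Q n0 T V).card : ℂ) := by
      push_cast
      ring
    rw [e1]
    refine (norm_add_le _ _).trans (add_le_add ?_ ?_)
    · refine norm_sum_le_of_le _ fun x _ => ?_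
      rw [norm_mul, norm_mul, norm_mul]
      have k1 := cf_le hq hK r s l x.1
      have k2 := cf_le hq hK r' s' l' x.2
      have k3 : ‖(2 : ℂ)‖ = 2 := by simp
      rw [k3]
      have k4 := mul_le_one₀ k1 (norm_nonneg _) k2
      have k5 : (0 : ℝ) ≤ 2 * ‖∑ B ∈ rT h0 Q n0 T V, β x X B‖ := by positivity
      calc _ ≤ 1 * (2 * ‖∑ B ∈ rT h0 Q n0 T V, β x X B‖) := mul_le_mul_of_nonneg_right k4 k5
        _ = _ := one_mul _
    · rw [norm_mul, Complex.norm_natCast]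
      have k1 : ((rT h0 Q n0 T V).card : ℝ) ≤ T + 1 := by exact_mod_cast rT_card hQ (h4 V hV)
      exact mul_le_mul h2 k1 (Nat.cast_nonneg _) (by positivity)
  refine (sum_le_sum hV).trans ?_
  rw [sum_add_distrib, sum_comm, sum_const, nsmul_eq_mul]
  have e1 : ∑ x ∈ S, ∑ V ∈ bx X, 2 * ‖∑ B ∈ rT h0 Q n0 T V, β x X B‖ ≤ δ / 2 * T * X := by
    have e2 : ∀ x ∈ S, ∑ V ∈ bx X, 2 * ‖∑ B ∈ rT h0 Q n0 T V, β x X B‖ ≤ 2 * (δ / (4 * (n1 + 1)) * T * X) := by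
      intro x hx
      rw [← mul_sum]
      exact mul_le_mul_of_nonneg_left (h1 x hx) (by norm_num)
    refine (sum_le_sum e2).trans ?_
    rw [sum_const, nsmul_eq_mul, ← hn1]
    have e3 : n1 * (2 * (δ / (4 * (n1 + 1)) * T * X)) = (n1 / (n1 + 1)) * (δ / 2 * T * X) := by
      field_simp
      ring
    rw [e3]
    have e4 : n1 / (n1 + 1) ≤ 1 := by
      rw [div_le_one (by linarith)]
      linarith
    have e5 : 0 ≤ δ / 2 * T * X := by positivity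
    calc _ ≤ 1 * (δ / 2 * T * X) := mul_le_mul_of_nonneg_right e4 e5
      _ = _ := one_mul _
  have e2 : ((bx X).card : ℝ) * (δ / 16 * (T + 1)) ≤ δ / 2 * T * X := by
    have e3 := bx_card h5
    calc ((bx X).card : ℝ) * (δ / 16 * (T + 1)) ≤ 4 * X * (δ / 16 * (T + T)) := by
          apply mul_le_mul e3 _ (by positivity) (by positivity)
          gcongr
      _ = δ / 2 * T * X := by ring
  linarith

end Pool.Agent.SplR
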