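import Pool.Agent.Lib_MP_92ef0c_rw.R3

/-!
# MP_92ef0c_nt, law for almost all pairs of moduli: the final law
-/

set_option autoImplicit false

namespace Pool.Agent.SplR

open Finset Pool.Agent.Spl Pool.Agent.SplB Pool.Agent.SplL Pool.Agent.OmEq
  Pool.Agent.LPr MeasureTheory Filter

open Classical in
/-- the `n < J a b k` with `b ∣ n`, `a ∣ n + h`, `n ≡ n0 mod k`: for `a, b, k` coprime in pairs the first `J` members of a
progression modulo `a b k` -/
noncomputable def prg (h k n0 a b J : ℕ) : Finset ℕ :=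
  (range (J * (a * b * k))).filter (fun n => b ∣ n ∧ a ∣ n + h ∧ n ≡ n0 [MOD k])

open Classical in
/-- the members of the progression coprime to `h` as second rows -/
theorem prg_rT (h k n0 : ℕ) (hh : 0 < h) (hk : 0 < k) (J : ℕ) (V : ℕ × ℕ) (hV1 : 1 ≤ V.1) (hV2 : 1 ≤ V.2)
    (P : ℕ × ℕ → Prop) :
    ((prg h k n0 V.1 V.2 J).filter (fun n => n.Coprime h ∧ P (n / V.2, (n + h) / V.1))).card =
      ∑ m ∈ CS h k n0, ((rT h (k * h) m (J * k) V).filter P).card := by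
  have hdisj : ∀ m ∈ CS h k n0, ∀ m' ∈ CS h k n0, m ≠ m' →
      Disjoint ((rT h (k * h) m (J * k) V).filter P) ((rT h (k * h) m' (J * k) V).filter P) := by
    intro m hm m' hm' hne
    rw [Finset.disjoint_left]
    intro B hB hB'
    rw [mem_filter, mem_rT hV1] at hB hB'
    apply hne
    have h3 := hB.1.2.1.symm.trans hB'.1.2.1
    unfold CS at hm hm'
    rw [mem_filter, mem_range] at hm hm'
    unfold Nat.ModEq at h3
    rwa [Nat.mod_eq_of_lt hm.1, Nat.mod_eq_of_lt hm'.1] at h3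
  rw [← card_biUnion hdisj]
  refine card_nbij' (fun n => (n / V.2, (n + h) / V.1)) (fun B => V.2 * B.1) ?_ ?_ ?_ ?_
  · intro n hn
    rw [mem_coe, mem_filter] at hn
    obtain ⟨hn1, hn2, hn3⟩ := hn
    unfold prg at hn1
    rw [mem_filter, mem_range] at hn1
    obtain ⟨g1, g2, g3, g4⟩ := hn1
    rw [mem_coe, mem_biUnion]
    refine ⟨n % (k * h), ?_, ?_⟩
    · unfold CS
      rw [mem_filter, mem_range]
      refine ⟨Nat.mod_lt _ (Nat.mul_pos hk hh), ?_, ?_⟩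
      · exact ((Nat.mod_modEq _ (k * h)).of_mul_right h).trans g4
      · exact cop_of_modEq ((Nat.mod_modEq _ (k * h)).of_mul_left k) hn2
    · rw [mem_filter, mem_rT hV1]
      refine ⟨⟨?_, ?_, ?_⟩, hn3⟩
      · show V.1 * ((n + h) / V.1) = V.2 * (n / V.2) + h
        rw [Nat.mul_div_cancel' g3, Nat.mul_div_cancel' g2]
      · show V.2 * (n / V.2) ≡ n % (k * h) [MOD k * h]
        rw [Nat.mul_div_cancel' g2]
        exact (Nat.mod_modEq _ _).symm
      · show n / V.2 < J * k * V.1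
        apply Nat.div_lt_of_lt_mul
        calc n < J * (V.1 * V.2 * k) := g1
          _ = V.2 * (J * k * V.1) := by ring
  · intro B hB
    rw [mem_coe, mem_biUnion] at hB
    obtain ⟨m, hm, hB⟩ := hB
    rw [mem_filter, mem_rT hV1] at hB
    obtain ⟨⟨e1, e2, e3⟩, e4⟩ := hB
    unfold CS at hm
    rw [mem_filter, mem_range] at hm
    obtain ⟨-, hm1, hm2⟩ := hm
    rw [mem_coe, mem_filter]
    refine ⟨?_, cop_of_modEq (e2.of_mul_left k) hm2, ?_⟩
    · unfold prg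
      rw [mem_filter, mem_range]
      refine ⟨?_, Dvd.intro _ rfl, ?_, (e2.of_mul_right h).trans hm1⟩
      · calc V.2 * B.1 < V.2 * (J * k * V.1) := Nat.mul_lt_mul_of_pos_left e3 hV2
          _ = J * (V.1 * V.2 * k) := by ring
      · rw [← e1]
        exact Dvd.intro _ rfl
    · rw [← e1, Nat.mul_div_cancel_left _ hV2, Nat.mul_div_cancel_left _ hV1]
      exact e4
  · intro n hn
    rw [mem_coe, mem_filter] at hn
    obtain ⟨hn1, -, -⟩ := hn
    unfold prg at hn1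
    rw [mem_filter, mem_range] at hn1
    exact Nat.mul_div_cancel' hn1.2.1
  · intro B hB
    rw [mem_coe, mem_biUnion] at hB
    obtain ⟨m, hm, hB⟩ := hB
    rw [mem_filter, mem_rT hV1] at hB
    obtain ⟨⟨e1, e2, e3⟩, e4⟩ := hB
    show (V.2 * B.1 / V.2, (V.2 * B.1 + h) / V.1) = B
    rw [← e1, Nat.mul_div_cancel_left _ hV2, Nat.mul_div_cancel_left _ hV1]

/-- shift of the classes -/
theorem omega_shift {q : ℕ} (hq : 0 < q) (s b : ℕ) (hb : b ≠ 0) : ∃ t < q, ∀ c : ℕ, c ≠ 0 →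
    (ArithmeticFunction.cardFactors (b * c) ≡ s [MOD q] ↔ ArithmeticFunction.cardFactors c ≡ t [MOD q]) := by
  set w := ArithmeticFunction.cardFactors b with hw
  refine ⟨(s + (q - 1) * w) % q, Nat.mod_lt _ hq, fun c hc => ?_⟩
  have h1 : w + (s + (q - 1) * w) % q ≡ s [MOD q] := by
    have h2 : w + (s + (q - 1) * w) % q ≡ w + (s + (q - 1) * w) [MOD q] := (Nat.mod_modEq _ q).add_left w
    have h3 : w + (s + (q - 1) * w) = s + q * w := by
      obtain ⟨p, rfl⟩ : ∃ p, q = p + 1 := ⟨q - 1, by omega⟩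
      rw [Nat.add_sub_cancel]
      ring
    rw [h3] at h2
    refine h2.trans ?_
    have h4 : q * w ≡ 0 [MOD q] := (Nat.modEq_zero_iff_dvd).2 (Dvd.intro _ rfl)
    have h5 := h4.add_left s
    rwa [add_zero] at h5
  rw [ArithmeticFunction.cardFactors_mul hb hc, ← hw]
  constructor
  · intro h
    exact Nat.ModEq.add_left_cancel' w (h.trans h1.symm)
  · intro h
    exact (h.add_left w).trans h1

open Classical in
theorem rows_law (B : BS) (h k n0 : ℕ) (hh : 0 < h) (hk : 0 < k) (h1 : n0.Coprime k) (h2 : (n0 + h).Coprime k)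
    (r r' : ℕ) (u v u' v' : ℕ → ℝ) (l l' : ℕ → ℕ) (hu : ∀ i < r, 0 < u i ∧ u i ≤ v i)
    (hu' : ∀ i < r', 0 < u' i ∧ u' i ≤ v' i) : ∃ c c' : ℝ,
      Tendsto (fun y : ℝ => (Set.ncard {n : ℕ | 1 ≤ n ∧ (n : ℝ) ≤ y ∧ ∀ i < r, wc y (u i) (v i) n = l i} : ℝ) / y)
        atTop (nhds c) ∧
      Tendsto (fun y : ℝ => (Set.ncard {n : ℕ | 1 ≤ n ∧ (n : ℝ) ≤ y ∧ ∀ i < r', wc y (u' i) (v' i) n = l' i} : ℝ) / y)
        atTop (nhds c') ∧
      ∀ q : ℕ, 0 < q → ∀ ε : ℝ, 0 < ε → ∃ J0 : ℕ, ∀ J : ℕ, J0 ≤ J → ∀ᶠ Y : ℝ in atTop,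
        ((Set.ncard {V : ℕ × ℕ | (Y < V.1 ∧ (V.1 : ℝ) ≤ 2 * Y) ∧ (Y < V.2 ∧ (V.2 : ℝ) ≤ 2 * Y) ∧ ∃ s s' : ℕ,
          ε * J < |(((prg h k n0 V.1 V.2 J).filter (fun n => n.Coprime h ∧
              (ArithmeticFunction.cardFactors n ≡ s [MOD q] ∧ ArithmeticFunction.cardFactors (n + h) ≡ s' [MOD q]) ∧
              (∀ i < r, wc Y (u i) (v i) (n / V.2) = l i) ∧
              (∀ i < r', wc Y (u' i) (v' i) ((n + h) / V.1) = l' i))).card : ℝ) -
            c * c' / (q : ℝ) ^ 2 * (((prg h k n0 V.1 V.2 J).filter (fun n => n.Coprime h)).card : ℝ)|} : ℕ) : ℝ) ≤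
          ε * Y ^ 2 := by
  obtain ⟨u0, K, hu0, hKu, H1, H2⟩ := exists_par ![r, r', 0, 0] ![u, u', u, u] ![l, l', l, l] (by
    intro i j hj
    fin_cases i
    · exact (hu j hj).1
    · exact (hu' j hj).1
    · exact absurd hj (Nat.not_lt_zero _)
    · exact absurd hj (Nat.not_lt_zero _))
  have a1 : ∀ i < r, u0 ≤ u i := H1 0
  have a1' : ∀ i < r', u0 ≤ u' i := H1 1
  have a2 : ∀ i < r, l i < K := H2 0
  have a2' : ∀ i < r', l' i < K := H2 1
  have a3 : ∀ i < r, u0 ≤ u i ∧ u i ≤ v i := fun i hi => ⟨a1 i hi, (hu i hi).2⟩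
  have a3' : ∀ i < r', u0 ≤ u' i ∧ u' i ≤ v' i := fun i hi => ⟨a1' i hi, (hu' i hi).2⟩
  obtain ⟨c, hc, hcl⟩ := int_lawG K u0 hu0 u v r a3 hKu l a2
  obtain ⟨c', hc', hcl'⟩ := int_lawG K u0 hu0 u' v' r' a3' hKu l' a2'
  refine ⟨c, c', hcl, hcl', fun q hq ε hε => ?_⟩
  have hq0 : (0 : ℝ) < q := by exact_mod_cast hq
  have hk0 : (0 : ℝ) < k := by exact_mod_cast hk
  set M : ℝ := ((CS h k n0).card : ℝ) with hM
  have hM0 : 0 ≤ M := Nat.cast_nonneg _
  set δ : ℝ := ε ^ 2 / (q ^ 2 * M * k + 1) with hδ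
  have hδ0 : 0 < δ := by positivity
  have hex : ∀ m s s' : ℕ, ∃ T0 : ℕ, m ∈ CS h k n0 → ∀ T : ℕ, T0 ≤ T → ∀ᶠ X : ℝ in atTop, ∑ V ∈ bx X,
      |(((rT h (k * h) m T V).filter (OC q s s' r r' u v u' v' l l' (Real.sqrt X))).card : ℝ) -
        c * c' / (q : ℝ) ^ 2 * ((rT h (k * h) m T V).card : ℝ)| ≤ δ * T * X := by
    intro m s s'
    by_cases hm : m ∈ CS h k n0
    · obtain ⟨T0, hT0⟩ := class_law B (hq_of_mem hh hk h1 h2 hm) hq hu0 hKu r r' u v u' v' l l' a3 a3' a2 a2' c c' hc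
        hc' s s' δ hδ0
      exact ⟨T0, fun _ => hT0⟩
    · exact ⟨0, fun h => absurd h hm⟩
  choose T0 hT0 using hex
  refine ⟨∑ m ∈ CS h k n0, ∑ s ∈ range q, ∑ s' ∈ range q, T0 m s s' + 1, fun J hJ => ?_⟩
  have hJ1 : 1 ≤ J := by omega
  have hJ0 : (1 : ℝ) ≤ J := by exact_mod_cast hJ1
  have hTle : ∀ m ∈ CS h k n0, ∀ s ∈ range q, ∀ s' ∈ range q, T0 m s s' ≤ J * k := by
    intro m hm s hs s' hs'
    have e1 : T0 m s s' ≤ ∑ s' ∈ range q, T0 m s s' :=
      single_le_sum (f := fun s' => T0 m s s') (fun _ _ => Nat.zero_le _) hs'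
    have e2 : ∑ s' ∈ range q, T0 m s s' ≤ ∑ s ∈ range q, ∑ s' ∈ range q, T0 m s s' :=
      single_le_sum (f := fun s => ∑ s' ∈ range q, T0 m s s') (fun _ _ => Nat.zero_le _) hs
    have e3 : ∑ s ∈ range q, ∑ s' ∈ range q, T0 m s s' ≤ ∑ m ∈ CS h k n0, ∑ s ∈ range q, ∑ s' ∈ range q, T0 m s s' :=
      single_le_sum (f := fun m => ∑ s ∈ range q, ∑ s' ∈ range q, T0 m s s') (fun _ _ => Nat.zero_le _) hm
    have e4 : J ≤ J * k := Nat.le_mul_of_pos_right J hk
    omega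
  have hev : ∀ᶠ X : ℝ in atTop, ∀ m ∈ CS h k n0, ∀ s ∈ range q, ∀ s' ∈ range q, ∑ V ∈ bx X,
      |(((rT h (k * h) m (J * k) V).filter (OC q s s' r r' u v u' v' l l' (Real.sqrt X))).card : ℝ) -
        c * c' / (q : ℝ) ^ 2 * ((rT h (k * h) m (J * k) V).card : ℝ)| ≤ δ * (J * k : ℕ) * X :=
    (Finset.eventually_all _).2 fun m hm => (Finset.eventually_all _).2 fun s hs => (Finset.eventually_all _).2
      fun s' hs' => hT0 m s s' hm (J * k) (hTle m hm s hs s' hs')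
  have hsq : Tendsto (fun Y : ℝ => Y ^ 2) atTop atTop := tendsto_pow_atTop two_ne_zero
  filter_upwards [hsq.eventually hev, eventually_ge_atTop (h : ℝ), eventually_ge_atTop (1 : ℝ)] with Y hY hYh hY1
  have hY0 : (0 : ℝ) ≤ Y := by linarith
  rw [Real.sqrt_sq hY0] at hY
  set D : ℕ → ℕ → ℕ → ℕ × ℕ → ℝ := fun m s s' V =>
    |(((rT h (k * h) m (J * k) V).filter (OC q s s' r r' u v u' v' l l' Y)).card : ℝ) -
        c * c' / (q : ℝ) ^ 2 * ((rT h (k * h) m (J * k) V).card : ℝ)| with hD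
  have hD0 : ∀ m s s' V, 0 ≤ D m s s' V := fun m s s' V => abs_nonneg _
  set E : ℕ × ℕ → ℝ := fun V => ∑ s ∈ range q, ∑ s' ∈ range q, ∑ m ∈ CS h k n0, D m s s' V with hE
  have hE0 : ∀ V, 0 ≤ E V := fun V => sum_nonneg fun s _ => sum_nonneg fun s' _ => sum_nonneg fun m _ => hD0 m s s' V
  set S := (bx (Y ^ 2)).filter (fun V => ε * J < E V) with hS
  have hεJ : 0 < ε * J := by positivity
  -- the exceptional pairs
  have hsub : {V : ℕ × ℕ | (Y < V.1 ∧ (V.1 : ℝ) ≤ 2 * Y) ∧ (Y < V.2 ∧ (V.2 : ℝ) ≤ 2 * Y) ∧ ∃ s s' : ℕ,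
          ε * J < |(((prg h k n0 V.1 V.2 J).filter (fun n => n.Coprime h ∧
              (ArithmeticFunction.cardFactors n ≡ s [MOD q] ∧ ArithmeticFunction.cardFactors (n + h) ≡ s' [MOD q]) ∧
              (∀ i < r, wc Y (u i) (v i) (n / V.2) = l i) ∧
              (∀ i < r', wc Y (u' i) (v' i) ((n + h) / V.1) = l' i))).card : ℝ) -
            c * c' / (q : ℝ) ^ 2 * (((prg h k n0 V.1 V.2 J).filter (fun n => n.Coprime h)).card : ℝ)|} ⊆
      (S : Set (ℕ × ℕ)) := by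
    rintro V ⟨g1, g2, s, s', g3⟩
    rw [mem_coe, hS, mem_filter, mem_bx, Real.sqrt_sq hY0]
    refine ⟨⟨g1, g2⟩, g3.trans_le ?_⟩
    have hV1 : 1 ≤ V.1 := by
      have : (0 : ℝ) < V.1 := by linarith [g1.1]
      exact_mod_cast this
    have hV2 : 1 ≤ V.2 := by
      have : (0 : ℝ) < V.2 := by linarith [g2.1]
      exact_mod_cast this
    obtain ⟨t, ht, ht'⟩ := omega_shift hq s V.2 (by omega)
    obtain ⟨t', htt, htt'⟩ := omega_shift hq s' V.1 (by omega)
    have k1 : (prg h k n0 V.1 V.2 J).filter (fun n => n.Coprime h ∧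
              (ArithmeticFunction.cardFactors n ≡ s [MOD q] ∧ ArithmeticFunction.cardFactors (n + h) ≡ s' [MOD q]) ∧
              (∀ i < r, wc Y (u i) (v i) (n / V.2) = l i) ∧
              (∀ i < r', wc Y (u' i) (v' i) ((n + h) / V.1) = l' i)) =
        (prg h k n0 V.1 V.2 J).filter (fun n => n.Coprime h ∧
          OC q t t' r r' u v u' v' l l' Y (n / V.2, (n + h) / V.1)) := by
      refine filter_congr fun n hn => ?_
      unfold prg at hn
      rw [mem_filter, mem_range] at hn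
      obtain ⟨-, n1, n2, -⟩ := hn
      have n0' : n ≠ 0 := by
        rintro rfl
        rw [zero_add] at n2
        have e1 : V.1 ≤ h := Nat.le_of_dvd hh n2
        have e2 : (V.1 : ℝ) ≤ h := by exact_mod_cast e1
        linarith [g1.1]
      have e1 : V.2 * (n / V.2) = n := Nat.mul_div_cancel' n1
      have e2 : V.1 * ((n + h) / V.1) = n + h := Nat.mul_div_cancel' n2
      have e3 : n / V.2 ≠ 0 := by
        intro h0
        rw [h0, mul_zero] at e1
        exact n0' e1.symm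
      have e4 : (n + h) / V.1 ≠ 0 := by
        intro h0
        rw [h0, mul_zero] at e2
        omega
      have e5 := ht' _ e3
      have e6 := htt' _ e4
      rw [e1] at e5
      rw [e2] at e6
      unfold OC
      rw [e5, e6]
      tauto
    have k2 := prg_rT h k n0 hh hk J V hV1 hV2 (OC q t t' r r' u v u' v' l l' Y)
    have k3 := prg_rT h k n0 hh hk J V hV1 hV2 (fun _ => True)
    simp only [and_true, filter_true] at k3
    rw [k1, k2, k3]
    push_cast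
    rw [mul_sum, ← sum_sub_distrib]
    refine (abs_sum_le_sum_abs _ _).trans ?_
    have k4 : ∑ m ∈ CS h k n0, D m t t' V ≤ ∑ s' ∈ range q, ∑ m ∈ CS h k n0, D m t s' V :=
      single_le_sum (f := fun s' => ∑ m ∈ CS h k n0, D m t s' V) (fun s' _ => sum_nonneg fun m _ => hD0 m t s' V)
        (mem_range.2 htt)
    have k5 : ∑ s' ∈ range q, ∑ m ∈ CS h k n0, D m t s' V ≤ E V :=
      single_le_sum (f := fun s => ∑ s' ∈ range q, ∑ m ∈ CS h k n0, D m s s' V)
        (fun s _ => sum_nonneg fun s' _ => sum_nonneg fun m _ => hD0 m s s' V) (mem_range.2 ht)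
    exact k4.trans k5
  -- Markov
  have hsum : ∑ V ∈ bx (Y ^ 2), E V ≤ q ^ 2 * M * (δ * (J * k) * Y ^ 2) := by
    rw [hE]
    rw [sum_comm]
    have e1 : ∀ s ∈ range q, ∑ V ∈ bx (Y ^ 2), ∑ s' ∈ range q, ∑ m ∈ CS h k n0, D m s s' V ≤
        q * (M * (δ * (J * k) * Y ^ 2)) := by
      intro s hs
      rw [sum_comm]
      have e2 : ∀ s' ∈ range q, ∑ V ∈ bx (Y ^ 2), ∑ m ∈ CS h k n0, D m s s' V ≤ M * (δ * (J * k) * Y ^ 2) := by
        intro s' hs'
        rw [sum_comm]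
        have e3 : ∀ m ∈ CS h k n0, ∑ V ∈ bx (Y ^ 2), D m s s' V ≤ δ * (J * k) * Y ^ 2 := by
          intro m hm
          have := hY m hm s hs s' hs'
          push_cast at this
          exact this
        refine (sum_le_sum e3).trans ?_
        rw [sum_const, nsmul_eq_mul]
      refine (sum_le_sum e2).trans ?_
      rw [sum_const, nsmul_eq_mul, card_range]
    refine (sum_le_sum e1).trans ?_
    rw [sum_const, nsmul_eq_mul, card_range]
    apply le_of_eq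
    ring
  have hmk : (S.card : ℝ) * (ε * J) ≤ ∑ V ∈ bx (Y ^ 2), E V := by
    have e1 : (S.card : ℝ) * (ε * J) = ∑ _V ∈ S, ε * J := by
      rw [sum_const, nsmul_eq_mul]
    rw [e1]
    calc ∑ _V ∈ S, ε * J ≤ ∑ V ∈ S, E V := by
          refine sum_le_sum fun V hV => ?_
          rw [hS, mem_filter] at hV
          exact hV.2.le
      _ ≤ ∑ V ∈ bx (Y ^ 2), E V := sum_le_sum_of_subset_of_nonneg (filter_subset _ _) fun V _ _ => hE0 V
  have hfin : q ^ 2 * M * (δ * (J * k) * Y ^ 2) ≤ (ε * Y ^ 2) * (ε * J) := by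
    have e1 : q ^ 2 * M * (δ * (J * k) * Y ^ 2) = (q ^ 2 * M * k * δ) * (J * Y ^ 2) := by ring
    have e2 : (q : ℝ) ^ 2 * M * k * δ ≤ ε ^ 2 := by
      rw [hδ, mul_div_assoc', div_le_iff₀ (by positivity)]
      have : (0 : ℝ) ≤ ε ^ 2 := by positivity
      nlinarith
    have e3 : (0 : ℝ) ≤ J * Y ^ 2 := by positivity
    rw [e1]
    calc _ ≤ ε ^ 2 * (J * Y ^ 2) := mul_le_mul_of_nonneg_right e2 e3
      _ = _ := by ring
  have hcard : (S.card : ℝ) ≤ ε * Y ^ 2 := le_of_mul_le_mul_right ((hmk.trans hsum).trans hfin) hεJ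
  refine le_trans ?_ hcard
  have e1 := Set.ncard_le_ncard hsub (finite_toSet S)
  rw [Set.ncard_coe_finset] at e1
  exact_mod_cast e1

end Pool.Agent.SplR
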