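import Pool.Agent.Lib_MP_92ef0c_rw.R4
import Pool.Agent.Lib_MP_92ef0c_rw.Prg

/-!
# MP_92ef0c_nt, law for almost all pairs of moduli: all initial segments at once
-/

set_option autoImplicit false

namespace Pool.Agent.SplR

open Finset Pool.Agent.Spl Pool.Agent.SplB Pool.Agent.SplL Pool.Agent.GaussMR Pool.Agent.OmAll Pool.Agent.OmEq
  Pool.Agent.LPr MeasureTheory Filter

theorem dens_le {P : ℝ → ℕ → Prop} {c : ℝ}
    (h : Tendsto (fun y : ℝ => (Set.ncard {n : ℕ | 1 ≤ n ∧ (n : ℝ) ≤ y ∧ P y n} : ℝ) / y) atTop (nhds c)) :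
    0 ≤ c ∧ c ≤ 1 := by
  constructor
  · refine ge_of_tendsto h ?_
    filter_upwards [eventually_ge_atTop (0 : ℝ)] with y hy
    positivity
  · refine le_of_tendsto h ?_
    filter_upwards [eventually_gt_atTop (0 : ℝ)] with y hy
    rw [div_le_one hy]
    have h1 : {n : ℕ | 1 ≤ n ∧ (n : ℝ) ≤ y ∧ P y n} ⊆ ((Icc 1 ⌊y⌋₊ : Finset ℕ) : Set ℕ) := by
      rintro n ⟨h1, h2, -⟩
      rw [mem_coe, mem_Icc]
      exact ⟨h1, Nat.le_floor h2⟩
    have h2 := Set.ncard_le_ncard h1 (finite_toSet _)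
    rw [Set.ncard_coe_finset, Nat.card_Icc, Nat.add_sub_cancel] at h2
    have h3 : (Set.ncard {n : ℕ | 1 ≤ n ∧ (n : ℝ) ≤ y ∧ P y n} : ℝ) ≤ (⌊y⌋₊ : ℝ) := by exact_mod_cast h2
    exact h3.trans (Nat.floor_le hy.le)

open Classical in
/-- the members coprime to `h` -/
noncomputable def prc (h k n0 a b J : ℕ) : Finset ℕ := (prg h k n0 a b J).filter (fun n => n.Coprime h)

theorem mem_prc {h k n0 a b J n : ℕ} : n ∈ prc h k n0 a b J ↔
    (n < J * (a * b * k) ∧ b ∣ n ∧ a ∣ n + h ∧ n ≡ n0 [MOD k]) ∧ n.Coprime h := by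
  classical
  unfold prc prg
  rw [mem_filter, mem_filter, mem_range]

theorem prc_mono {h k n0 a b i j : ℕ} (hij : i ≤ j) : prc h k n0 a b i ⊆ prc h k n0 a b j := by
  intro n hn
  rw [mem_prc] at hn ⊢
  exact ⟨⟨hn.1.1.trans_le (Nat.mul_le_mul_right _ hij), hn.1.2⟩, hn.2⟩

/-- at most `j - i` members more -/
theorem prc_sdiff {h k n0 a b i j : ℕ} (hk : 0 < k) (h1 : n0.Coprime k) (h2 : (n0 + h).Coprime k) (ha : 0 < a)
    (hb : 0 < b) (hij : i ≤ j) : (prc h k n0 a b j \ prc h k n0 a b i).card ≤ j - i := by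
  classical
  rcases (prc h k n0 a b j).eq_empty_or_nonempty with h0 | ⟨m, hm⟩
  · rw [h0]
    simp
  rw [mem_prc] at hm
  obtain ⟨⟨-, hbm, ham, hmk⟩, hmh⟩ := hm
  have hab : a.Coprime b := by
    have e1 : Nat.gcd a b ∣ m := (Nat.gcd_dvd_right a b).trans hbm
    have e2 : Nat.gcd a b ∣ m + h := (Nat.gcd_dvd_left a b).trans ham
    have e3 : Nat.gcd a b ∣ h := (Nat.dvd_add_right e1).1 e2
    have e4 : Nat.gcd a b ∣ Nat.gcd m h := Nat.dvd_gcd e1 e3
    rw [hmh] at e4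
    exact Nat.dvd_one.1 e4
  have hmk' : m.Coprime k := by
    have := hmk.gcd_eq
    unfold Nat.Coprime
    rw [this]
    exact h1
  have hmk'' : (m + h).Coprime k := by
    have := (hmk.add_right h).gcd_eq
    unfold Nat.Coprime
    rw [this]
    exact h2
  have habk : (a * b).Coprime k :=
    Nat.Coprime.mul_left (Nat.Coprime.coprime_dvd_left ham hmk'') (Nat.Coprime.coprime_dvd_left hbm hmk')
  have hc : ∀ J, (prg h k n0 a b J).card = J := by
    intro J
    have e1 := prg_card h k n0 a b J hk ha hb hab habk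
    have e2 : {n : ℕ | n < J * (a * b * k) ∧ b ∣ n ∧ a ∣ n + h ∧ n ≡ n0 [MOD k]} =
        ((prg h k n0 a b J : Finset ℕ) : Set ℕ) := by
      ext n
      unfold prg
      rw [Finset.coe_filter, Set.mem_ofPred_eq, Set.mem_ofPred_eq, mem_range]
    rw [e2, Set.ncard_coe_finset] at e1
    exact e1
  have hsub : prg h k n0 a b i ⊆ prg h k n0 a b j := by
    intro n hn
    unfold prg at hn ⊢
    rw [mem_filter, mem_range] at hn ⊢
    exact ⟨hn.1.trans_le (Nat.mul_le_mul_right _ hij), hn.2⟩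
  have h3 : prc h k n0 a b j \ prc h k n0 a b i ⊆ prg h k n0 a b j \ prg h k n0 a b i := by
    intro n hn
    unfold prc at hn
    rw [Finset.mem_sdiff, mem_filter, mem_filter] at hn
    rw [Finset.mem_sdiff]
    exact ⟨hn.1.1, fun h4 => hn.2 ⟨h4, hn.1.2⟩⟩
  refine (card_le_card h3).trans ?_
  rw [card_sdiff_of_subset hsub, hc, hc]

/-- the deviation changes by at most `j - i` -/
theorem dev_step {h k n0 a b i j : ℕ} (hk : 0 < k) (h1 : n0.Coprime k) (h2 : (n0 + h).Coprime k) (ha : 0 < a)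
    (hb : 0 < b) (hij : i ≤ j) (P : ℕ → Prop) [DecidablePred P] (κ : ℝ) (hκ0 : 0 ≤ κ) (hκ1 : κ ≤ 1) :
    |(((prc h k n0 a b j).filter P).card : ℝ) - κ * ((prc h k n0 a b j).card : ℝ)| ≤
      |(((prc h k n0 a b i).filter P).card : ℝ) - κ * ((prc h k n0 a b i).card : ℝ)| + (j - i) := by
  classical
  have hsub := prc_mono (h := h) (k := k) (n0 := n0) (a := a) (b := b) hij
  have e1 : ((prc h k n0 a b j).card : ℝ) = (prc h k n0 a b i).card + ((prc h k n0 a b j \ prc h k n0 a b i).card : ℝ) := by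
    have := card_sdiff_add_card_eq_card hsub
    have e : (prc h k n0 a b j).card = (prc h k n0 a b i).card + (prc h k n0 a b j \ prc h k n0 a b i).card := by omega
    exact_mod_cast e
  have hsub2 : (prc h k n0 a b i).filter P ⊆ (prc h k n0 a b j).filter P := filter_subset_filter _ hsub
  have e2 : (((prc h k n0 a b j).filter P).card : ℝ) = ((prc h k n0 a b i).filter P).card +
      (((prc h k n0 a b j).filter P \ (prc h k n0 a b i).filter P).card : ℝ) := by
    have := card_sdiff_add_card_eq_card hsub2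
    have e : ((prc h k n0 a b j).filter P).card = ((prc h k n0 a b i).filter P).card +
      ((prc h k n0 a b j).filter P \ (prc h k n0 a b i).filter P).card := by omega
    exact_mod_cast e
  have e3 : ((prc h k n0 a b j).filter P \ (prc h k n0 a b i).filter P).card ≤
      (prc h k n0 a b j \ prc h k n0 a b i).card := by
    apply card_le_card
    intro n hn
    rw [Finset.mem_sdiff, mem_filter, mem_filter] at hn
    rw [Finset.mem_sdiff]
    exact ⟨hn.1.1, fun h4 => hn.2 ⟨h4, hn.1.2⟩⟩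
  have e4 := prc_sdiff (i := i) (j := j) hk h1 h2 ha hb hij
  have e5 : ((prc h k n0 a b j \ prc h k n0 a b i).card : ℝ) ≤ j - i := by
    have : ((prc h k n0 a b j \ prc h k n0 a b i).card : ℝ) ≤ ((j - i : ℕ) : ℝ) := by exact_mod_cast e4
    rwa [Nat.cast_sub hij] at this
  have e6 : (((prc h k n0 a b j).filter P \ (prc h k n0 a b i).filter P).card : ℝ) ≤
      ((prc h k n0 a b j \ prc h k n0 a b i).card : ℝ) := by exact_mod_cast e3
  rw [e1, e2]
  set F := (((prc h k n0 a b i).filter P).card : ℝ)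
  set G := ((prc h k n0 a b i).card : ℝ)
  set dF := (((prc h k n0 a b j).filter P \ (prc h k n0 a b i).filter P).card : ℝ) with hdF
  set dG := ((prc h k n0 a b j \ prc h k n0 a b i).card : ℝ) with hdG
  have hF0 : 0 ≤ dF := by rw [hdF]; positivity
  have hG0 : 0 ≤ dG := by rw [hdG]; positivity
  have e7 : F + dF - κ * (G + dG) = (F - κ * G) + (dF - κ * dG) := by ring
  rw [e7]
  refine (abs_add_le _ _).trans (add_le_add le_rfl ?_)
  have e8 : κ * dG ≤ dG := by nlinarith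
  have e9 : 0 ≤ κ * dG := mul_nonneg hκ0 hG0
  rw [abs_le]
  constructor <;> linarith

open Classical in
/-- the law for all initial segments of the first `J` members at once -/
theorem rows_unif (B : BS) (h k n0 : ℕ) (hh : 0 < h) (hk : 0 < k) (h1 : n0.Coprime k) (h2 : (n0 + h).Coprime k)
    (r r' : ℕ) (u v u' v' : ℕ → ℝ) (l l' : ℕ → ℕ) (hu : ∀ i < r, 0 < u i ∧ u i ≤ v i)
    (hu' : ∀ i < r', 0 < u' i ∧ u' i ≤ v' i) : ∃ c c' : ℝ,
      Tendsto (fun y : ℝ => (Set.ncard {n : ℕ | 1 ≤ n ∧ (n : ℝ) ≤ y ∧ ∀ i < r, wc y (u i) (v i) n = l i} : ℝ) / y)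
        atTop (nhds c) ∧
      Tendsto (fun y : ℝ => (Set.ncard {n : ℕ | 1 ≤ n ∧ (n : ℝ) ≤ y ∧ ∀ i < r', wc y (u' i) (v' i) n = l' i} : ℝ) / y)
        atTop (nhds c') ∧
      ∀ q : ℕ, 0 < q → ∀ ε : ℝ, 0 < ε → ∃ J0 : ℕ, ∀ J : ℕ, J0 ≤ J → ∀ᶠ Y : ℝ in atTop,
        ((Set.ncard {V : ℕ × ℕ | (Y < V.1 ∧ (V.1 : ℝ) ≤ 2 * Y) ∧ (Y < V.2 ∧ (V.2 : ℝ) ≤ 2 * Y) ∧
          ∃ j ≤ J, ∃ s s' : ℕ,
          ε * J < |(((prg h k n0 V.1 V.2 j).filter (fun n => n.Coprime h ∧
              (ArithmeticFunction.cardFactors n ≡ s [MOD q] ∧ ArithmeticFunction.cardFactors (n + h) ≡ s' [MOD q]) ∧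
              (∀ i < r, wc Y (u i) (v i) (n / V.2) = l i) ∧
              (∀ i < r', wc Y (u' i) (v' i) ((n + h) / V.1) = l' i))).card : ℝ) -
            c * c' / (q : ℝ) ^ 2 * (((prg h k n0 V.1 V.2 j).filter (fun n => n.Coprime h)).card : ℝ)|} : ℕ) : ℝ) ≤
          ε * Y ^ 2 := by
  obtain ⟨c, c', hc, hc', H⟩ := rows_law B h k n0 hh hk h1 h2 r r' u v u' v' l l' hu hu'
  refine ⟨c, c', hc, hc', fun q hq ε hε => ?_⟩
  obtain ⟨c0, c1⟩ := dens_le (P := fun y n => ∀ i < r, wc y (u i) (v i) n = l i) hc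
  obtain ⟨c0', c1'⟩ := dens_le (P := fun y n => ∀ i < r', wc y (u' i) (v' i) n = l' i) hc'
  have hq1 : (1 : ℝ) ≤ (q : ℝ) ^ 2 := by
    have : (1 : ℝ) ≤ q := by exact_mod_cast hq
    nlinarith
  have hκ0 : 0 ≤ c * c' / (q : ℝ) ^ 2 := by positivity
  have hκ1 : c * c' / (q : ℝ) ^ 2 ≤ 1 := by
    rw [div_le_one (by linarith)]
    nlinarith
  set κ : ℝ := c * c' / (q : ℝ) ^ 2 with hκ
  obtain ⟨M, hM⟩ := exists_nat_ge (max 1 (2 / ε))
  have hM1 : (1 : ℝ) ≤ M := (le_max_left _ _).trans hM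
  have hM1' : 1 ≤ M := by exact_mod_cast hM1
  have hMε : 2 ≤ ε * M := by
    have := (le_max_right _ _).trans hM
    rw [div_le_iff₀ hε] at this
    linarith
  set ε1 : ℝ := ε / (4 * M) with hε1
  have hε10 : 0 < ε1 := by positivity
  obtain ⟨J1, hJ1⟩ := H q hq ε1 hε10
  refine ⟨M * (J1 + 1), fun J hJ => ?_⟩
  set L : ℕ := J / M with hL
  have hLJ1 : J1 + 1 ≤ L := (Nat.le_div_iff_mul_le (by omega)).2 (by rw [Nat.mul_comm]; exact hJ)
  have hL1 : 1 ≤ L := by omega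
  have hLJ : M * L ≤ J := Nat.mul_div_le J M
  have hLJ' : J < M * (L + 1) := Nat.lt_mul_div_succ J (by omega)
  have hev : ∀ᶠ Y : ℝ in atTop, ∀ t ∈ Icc 1 (2 * M),
      ((Set.ncard {V : ℕ × ℕ | (Y < V.1 ∧ (V.1 : ℝ) ≤ 2 * Y) ∧ (Y < V.2 ∧ (V.2 : ℝ) ≤ 2 * Y) ∧ ∃ s s' : ℕ,
          ε1 * ((t * L : ℕ) : ℝ) < |(((prg h k n0 V.1 V.2 (t * L)).filter (fun n => n.Coprime h ∧
              (ArithmeticFunction.cardFactors n ≡ s [MOD q] ∧ ArithmeticFunction.cardFactors (n + h) ≡ s' [MOD q]) ∧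
              (∀ i < r, wc Y (u i) (v i) (n / V.2) = l i) ∧
              (∀ i < r', wc Y (u' i) (v' i) ((n + h) / V.1) = l' i))).card : ℝ) -
            κ * (((prg h k n0 V.1 V.2 (t * L)).filter (fun n => n.Coprime h)).card : ℝ)|} : ℕ) : ℝ) ≤
          ε1 * Y ^ 2 := by
    rw [Filter.eventually_all_finset]
    intro t ht
    rw [mem_Icc] at ht
    exact hJ1 (t * L) (by
      have : L ≤ t * L := Nat.le_mul_of_pos_left L (by omega)
      omega)
  filter_upwards [hev, eventually_ge_atTop (0 : ℝ)] with Y hY hY0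
  set S : ℕ → Set (ℕ × ℕ) := fun t => {V : ℕ × ℕ | (Y < V.1 ∧ (V.1 : ℝ) ≤ 2 * Y) ∧ (Y < V.2 ∧ (V.2 : ℝ) ≤ 2 * Y) ∧
      ∃ s s' : ℕ, ε1 * ((t * L : ℕ) : ℝ) < |(((prg h k n0 V.1 V.2 (t * L)).filter (fun n => n.Coprime h ∧
              (ArithmeticFunction.cardFactors n ≡ s [MOD q] ∧ ArithmeticFunction.cardFactors (n + h) ≡ s' [MOD q]) ∧
              (∀ i < r, wc Y (u i) (v i) (n / V.2) = l i) ∧
              (∀ i < r', wc Y (u' i) (v' i) ((n + h) / V.1) = l' i))).card : ℝ) -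
            κ * (((prg h k n0 V.1 V.2 (t * L)).filter (fun n => n.Coprime h)).card : ℝ)|} with hS
  have hfin : ∀ t, (S t).Finite := by
    intro t
    have hf : ((range (⌊2 * Y⌋₊ + 1) ×ˢ range (⌊2 * Y⌋₊ + 1) : Finset (ℕ × ℕ)) : Set (ℕ × ℕ)).Finite :=
      finite_toSet _
    refine hf.subset ?_
    rintro V ⟨⟨-, hV1⟩, ⟨-, hV2⟩, -⟩
    rw [mem_coe, mem_product, mem_range, mem_range]
    exact ⟨Nat.lt_succ_of_le (Nat.le_floor hV1), Nat.lt_succ_of_le (Nat.le_floor hV2)⟩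
  have hfilt : ∀ (V : ℕ × ℕ) (j s s' : ℕ), (prg h k n0 V.1 V.2 j).filter (fun n => n.Coprime h ∧
              (ArithmeticFunction.cardFactors n ≡ s [MOD q] ∧ ArithmeticFunction.cardFactors (n + h) ≡ s' [MOD q]) ∧
              (∀ i < r, wc Y (u i) (v i) (n / V.2) = l i) ∧
              (∀ i < r', wc Y (u' i) (v' i) ((n + h) / V.1) = l' i)) =
      (prc h k n0 V.1 V.2 j).filter (fun n =>
              (ArithmeticFunction.cardFactors n ≡ s [MOD q] ∧ ArithmeticFunction.cardFactors (n + h) ≡ s' [MOD q]) ∧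
              (∀ i < r, wc Y (u i) (v i) (n / V.2) = l i) ∧
              (∀ i < r', wc Y (u' i) (v' i) ((n + h) / V.1) = l' i)) := by
    intro V j s s'
    unfold prc
    rw [filter_filter]
  have hsub : {V : ℕ × ℕ | (Y < V.1 ∧ (V.1 : ℝ) ≤ 2 * Y) ∧ (Y < V.2 ∧ (V.2 : ℝ) ≤ 2 * Y) ∧
          ∃ j ≤ J, ∃ s s' : ℕ,
          ε * J < |(((prg h k n0 V.1 V.2 j).filter (fun n => n.Coprime h ∧
              (ArithmeticFunction.cardFactors n ≡ s [MOD q] ∧ ArithmeticFunction.cardFactors (n + h) ≡ s' [MOD q]) ∧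
              (∀ i < r, wc Y (u i) (v i) (n / V.2) = l i) ∧
              (∀ i < r', wc Y (u' i) (v' i) ((n + h) / V.1) = l' i))).card : ℝ) -
            κ * (((prg h k n0 V.1 V.2 j).filter (fun n => n.Coprime h)).card : ℝ)|} ⊆
      (((Icc 1 (2 * M)).biUnion (fun t => (hfin t).toFinset) : Finset (ℕ × ℕ)) : Set (ℕ × ℕ)) := by
    rintro V ⟨hV1, hV2, j, hj, s, s', hs⟩
    rw [mem_coe, mem_biUnion]
    have ha : 0 < V.1 := by
      have : (0 : ℝ) < V.1 := hY0.trans_lt hV1.1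
      exact_mod_cast this
    have hb : 0 < V.2 := by
      have : (0 : ℝ) < V.2 := hY0.trans_lt hV2.1
      exact_mod_cast this
    rw [hfilt] at hs
    set P : ℕ → Prop := fun n =>
              (ArithmeticFunction.cardFactors n ≡ s [MOD q] ∧ ArithmeticFunction.cardFactors (n + h) ≡ s' [MOD q]) ∧
              (∀ i < r, wc Y (u i) (v i) (n / V.2) = l i) ∧
              (∀ i < r', wc Y (u' i) (v' i) ((n + h) / V.1) = l' i) with hP
    set t : ℕ := j / L with ht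
    have htj : t * L ≤ j := Nat.div_mul_le_self j L
    have htj' : j < t * L + L := by
      have := Nat.lt_div_mul_add (a := j) (b := L) (by omega)
      exact this
    have hstep := dev_step (h := h) (k := k) (n0 := n0) (a := V.1) (b := V.2) hk h1 h2 ha hb htj P κ hκ0 hκ1
    have hLr : (L : ℝ) ≤ ε / 2 * J := by
      have e1 : (M : ℝ) * L ≤ J := by exact_mod_cast hLJ
      have hLp : (0 : ℝ) ≤ L := Nat.cast_nonneg L
      have e2 : 2 * (L : ℝ) ≤ ε * M * L := by nlinarith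
      have e3 : ε * (M * L) ≤ ε * J := mul_le_mul_of_nonneg_left e1 hε.le
      linarith
    have hjr : (j : ℝ) - ((t * L : ℕ) : ℝ) ≤ L := by
      have : (j : ℝ) < ((t * L + L : ℕ) : ℝ) := by exact_mod_cast htj'
      push_cast at this ⊢
      linarith
    have hJ0 : (0 : ℝ) ≤ J := Nat.cast_nonneg J
    have hmain : ε / 2 * J < |(((prc h k n0 V.1 V.2 (t * L)).filter P).card : ℝ) -
        κ * ((prc h k n0 V.1 V.2 (t * L)).card : ℝ)| := by
      have hs' : ε * J < |(((prc h k n0 V.1 V.2 j).filter P).card : ℝ) - κ * ((prc h k n0 V.1 V.2 j).card : ℝ)| := hs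
      linarith
    have ht1 : 1 ≤ t := by
      rcases Nat.eq_zero_or_pos t with h0 | h0
      · exfalso
        rw [h0, Nat.zero_mul] at hmain
        have e1 : prc h k n0 V.1 V.2 0 = ∅ := by
          ext n
          rw [mem_prc, Nat.zero_mul]
          simp
        rw [e1] at hmain
        simp at hmain
        have : 0 ≤ ε / 2 * J := by positivity
        linarith
      · exact h0
    have htM : t ≤ 2 * M := by
      have e1 : j < 2 * M * L + L := by
        have e2 : M * (L + 1) ≤ 2 * M * L := by nlinarith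
        omega
      have e3 : t < 2 * M + 1 := by
        rw [ht]
        apply Nat.div_lt_of_lt_mul
        calc j < 2 * M * L + L := e1
          _ = L * (2 * M + 1) := by ring
      omega
    refine ⟨t, mem_Icc.2 ⟨ht1, htM⟩, ?_⟩
    rw [Set.Finite.mem_toFinset]
    refine ⟨hV1, hV2, s, s', ?_⟩
    rw [hfilt]
    refine lt_of_le_of_lt ?_ hmain
    have e1 : ((t * L : ℕ) : ℝ) ≤ J := by exact_mod_cast htj.trans hj
    have e2 : ε1 ≤ ε / 2 := by
      rw [hε1, div_le_div_iff₀ (by positivity) (by norm_num)]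
      nlinarith
    exact mul_le_mul e2 e1 (Nat.cast_nonneg _) (by positivity)
  have h3 := Set.ncard_le_ncard hsub (finite_toSet _)
  rw [Set.ncard_coe_finset] at h3
  have h4 : (((Icc 1 (2 * M)).biUnion (fun t => (hfin t).toFinset)).card : ℝ) ≤ ε * Y ^ 2 := by
    have e1 : ((Icc 1 (2 * M)).biUnion (fun t => (hfin t).toFinset)).card ≤ ∑ t ∈ Icc 1 (2 * M), (S t).ncard := by
      refine card_biUnion_le.trans (sum_le_sum fun t _ => ?_)
      rw [Set.ncard_eq_toFinset_card _ (hfin t)]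
    have e2 : ((∑ t ∈ Icc 1 (2 * M), (S t).ncard : ℕ) : ℝ) ≤ ∑ _t ∈ Icc 1 (2 * M), ε1 * Y ^ 2 := by
      push_cast
      exact sum_le_sum fun t ht => hY t ht
    rw [sum_const, nsmul_eq_mul, Nat.card_Icc, Nat.add_sub_cancel] at e2
    have e3 : (((Icc 1 (2 * M)).biUnion (fun t => (hfin t).toFinset)).card : ℝ) ≤
        ((∑ t ∈ Icc 1 (2 * M), (S t).ncard : ℕ) : ℝ) := by exact_mod_cast e1
    have e4 : ((2 * M : ℕ) : ℝ) * (ε1 * Y ^ 2) = ε / 2 * Y ^ 2 := by
      rw [hε1]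
      push_cast
      field_simp
      ring
    rw [e4] at e2
    have : 0 ≤ ε * Y ^ 2 := by positivity
    linarith
  have h5 : (({V : ℕ × ℕ | (Y < V.1 ∧ (V.1 : ℝ) ≤ 2 * Y) ∧ (Y < V.2 ∧ (V.2 : ℝ) ≤ 2 * Y) ∧
          ∃ j ≤ J, ∃ s s' : ℕ,
          ε * J < |(((prg h k n0 V.1 V.2 j).filter (fun n => n.Coprime h ∧
              (ArithmeticFunction.cardFactors n ≡ s [MOD q] ∧ ArithmeticFunction.cardFactors (n + h) ≡ s' [MOD q]) ∧
              (∀ i < r, wc Y (u i) (v i) (n / V.2) = l i) ∧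
              (∀ i < r', wc Y (u' i) (v' i) ((n + h) / V.1) = l' i))).card : ℝ) -
            κ * (((prg h k n0 V.1 V.2 j).filter (fun n => n.Coprime h)).card : ℝ)|}.ncard : ℕ) : ℝ) ≤
      (((Icc 1 (2 * M)).biUnion (fun t => (hfin t).toFinset)).card : ℝ) := by exact_mod_cast h3
  exact h5.trans h4

end Pool.Agent.SplR
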